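import Pool.Agent.BC78.BH31.Psi

/-! Level test: explicit labelled trees with nonzero value. -/

namespace Pool.Agent.BC78.BH31

open Pool.Agent.H25 Pool.Agent.BC78.BK Pool.Agent.BC78.BZ

variable {K : Type*} [Field K]

lemma ev_map {α β : Type} {A : Type*} [Ring A] (f : β → A) (g : α → β) (L : BK.LT α) :
    ev f (L.map g) = ev (fun x => f (g x)) L := by
  induction L with
  | leaf x => rfl
  | node a b iha ihb => simp only [BK.LT.map, ev, iha, ihb]

/-- a complete block -/
lemma ev_blk (th ze : ℕ → K) (j : ℕ) (S : BK.LT ℕ) (hn : S.leaves.Nodup) (F : St → B K) (s : St) :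
    ev (fun i => op th ze (Lr.bl j i)) S F s =
      (if 0 ∈ S.leaves then th j * s.1 + ze j else 1) • (ev (fun i => (bb j i : B K)) S * F s) := by
  induction S generalizing F with
  | leaf x =>
    show op th ze (Lr.bl j x) F s = _
    rw [op_apply]
    simp only [sc, sh, lb, ev, BK.LT.leaves, List.mem_singleton]
    congr 1
    by_cases h : x = 0 <;> simp [h, eq_comm]
  | node a b iha ihb =>
    have hn' : (a.leaves ++ b.leaves).Nodup := hn
    have ha := fun F => iha hn'.of_append_left F
    have hb := fun F => ihb hn'.of_append_right F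
    have hd : ¬ (0 ∈ a.leaves ∧ 0 ∈ b.leaves) := fun h => List.disjoint_of_nodup_append hn' h.1 h.2
    simp only [ev, LinearMap.sub_apply, Module.End.mul_apply, Pi.sub_apply, ha, hb, BK.LT.leaves, List.mem_append]
    by_cases h1 : 0 ∈ a.leaves <;> by_cases h2 : 0 ∈ b.leaves
    · exact absurd ⟨h1, h2⟩ hd
    · simp only [h1, h2, if_true, if_false, or_false, one_smul, sub_mul, smul_sub, mul_assoc, mul_smul_comm]
    · simp only [h1, h2, if_true, if_false, or_true, one_smul, sub_mul, smul_sub, mul_assoc, mul_smul_comm]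
    · simp only [h1, h2, if_false, or_false, one_smul, sub_mul, mul_assoc]

section
variable (K) (r : ℕ) (Bo : Option BT)

/-- block element -/
noncomputable def yb (j : ℕ) (σ : BT) : B K := ev (fun i => (bb j i : B K)) (pick K r Bo σ)

/-- product of block elements -/
noncomputable def ybl : ℕ → List BT → B K
  | _, [] => 1
  | j, σ :: l => yb K r Bo j σ * ybl (j + 1) l

/-- a pure tree -/
noncomputable def pu (j : ℕ) (σ : BT) : BK.LT Lr := (pick K r Bo σ).map (Lr.bl j)

open Classical in
/-- blocks of the marked tree -/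
noncomputable def bks : BT → List BT
  | BT.leaf => []
  | BT.node a b => if cb K r Bo b = 0 then bks a ++ [b] else if cb K r Bo a = 0 then bks b ++ [a] else bks a ++ bks b

open Classical in
/-- number of marks -/
noncomputable def nmk : BT → ℕ
  | BT.leaf => 1
  | BT.node a b => if cb K r Bo b = 0 then nmk a else if cb K r Bo a = 0 then nmk b else nmk a + nmk b

open Classical in
/-- labelled marked tree -/
noncomputable def lab (c : ℕ) : ℕ → ℕ → BT → BK.LT Lr
  | i, _, BT.leaf => BK.LT.leaf (Lr.mk c i)
  | i, j, BT.node a b =>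
    if cb K r Bo b = 0 then BK.LT.node (lab c i j a) (pu K r Bo (j + (bks K r Bo a).length) b)
    else if cb K r Bo a = 0 then BK.LT.node (pu K r Bo (j + (bks K r Bo b).length) a) (lab c i j b)
    else BK.LT.node (lab c i j a) (lab c (i + nmk K r Bo a) (j + (bks K r Bo a).length) b)

variable {K r Bo}

lemma pu_shape (j : ℕ) (σ : BT) : (pu K r Bo j σ).shape = σ := by
  rw [pu, shape_map, (pick_spec r Bo σ).1]

lemma lab_shape (c i j : ℕ) (t : BT) : (lab K r Bo c i j t).shape = t := by
  induction t generalizing i j with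
  | leaf => rfl
  | node a b iha ihb =>
    simp only [lab]
    split_ifs <;> simp only [BK.LT.shape, iha, ihb, pu_shape]

lemma yb_mem (j : ℕ) (σ : BT) : yb K r Bo j σ ∈ adj K {j} := by
  unfold yb
  generalize pick K r Bo σ = S
  induction S with
  | leaf x => exact bb_mem (Set.mem_singleton j) _
  | node a b iha ihb => exact sub_mem (mul_mem iha ihb) (mul_mem ihb iha)

lemma ybl_mem (j : ℕ) (l : List BT) : ybl K r Bo j l ∈ adj K {k | j ≤ k ∧ k < j + l.length} := by
  induction l generalizing j with
  | nil => exact one_mem _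
  | cons σ l ih =>
    refine mul_mem (adj_mono ?_ (yb_mem j σ)) (adj_mono ?_ (ih (j + 1)))
    · intro k hk; rw [Set.mem_singleton_iff] at hk; subst hk; simp
    · intro k hk; simp only [Set.mem_setOf_eq, List.length_cons] at hk ⊢; omega

lemma ybl_append (j : ℕ) (l l' : List BT) : ybl K r Bo j (l ++ l') = ybl K r Bo j l * ybl K r Bo (j + l.length) l' := by
  induction l generalizing j with
  | nil => simp [ybl]
  | cons σ l ih => 
    simp only [List.cons_append, ybl, ih, List.length_cons, mul_assoc]
    rw [show j + 1 + l.length = j + (l.length + 1) by omega]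

lemma ybl_single (j : ℕ) (σ : BT) : ybl K r Bo j [σ] = yb K r Bo j σ := by simp [ybl]

lemma ybl_comm (j : ℕ) (l : List BT) (k : ℕ) (σ : BT) (h : j + l.length ≤ k) :
    ybl K r Bo j l * yb K r Bo k σ = yb K r Bo k σ * ybl K r Bo j l :=
  adj_comm (by
    rw [Set.disjoint_singleton_right]; simp only [Set.mem_setOf_eq]; omega) (ybl_mem j l) (yb_mem k σ)

lemma ev_pu (th ze : ℕ → K) (j : ℕ) (σ : BT) (F : St → B K) (s : St) :
    ev (op th ze) (pu K r Bo j σ) F s = (th j * s.1 + ze j) • (yb K r Bo j σ * F s) := by
  rw [pu, ev_map, ev_blk]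
  · rw [(pick_spec r Bo σ).2.1, if_pos (List.mem_range.2 (lv_pos σ))]; rfl
  · rw [(pick_spec r Bo σ).2.1]; exact List.nodup_range

lemma nmk_pos (t : BT) : 1 ≤ nmk K r Bo t := by
  induction t with
  | leaf => simp [nmk]
  | node a b iha ihb => simp only [nmk]; split_ifs <;> omega

lemma nmk_eq (t : BT) : nmk K r Bo t = max 1 (cb K r Bo t) := by
  induction t with
  | leaf => simp only [nmk, cb]; split_ifs <;> simp
  | node a b iha ihb =>
    simp only [nmk, cb]
    split_ifs <;> omega

open Classical in
/-- evaluation of the marked tree -/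
lemma ev_lab (ze : ℕ → K) (c i j : ℕ) (t : BT) (N : ℕ) (hN : ∀ m : ℕ, 1 ≤ m → m ≤ N → ((m : ℕ) : K) ≠ 0)
    (ht : nmk K r Bo t ≤ N) :
    ∃ κ : K, κ ≠ 0 ∧ ∀ F s, ev (op (fun _ => 1) ze) (lab K r Bo c i j t) F s =
      if s.2 c = i then κ • (ybl K r Bo j (bks K r Bo t) *
        F (s.1 + nmk K r Bo t, Function.update s.2 c (i + nmk K r Bo t))) else 0 := by
  induction t generalizing i j with
  | leaf =>
    refine ⟨1, one_ne_zero, fun F s => ?_⟩
    show op (fun _ => 1) ze (Lr.mk c i) F s = _
    rw [op_apply]
    simp only [sc, sh, lb, nmk, bks, ybl, one_mul, ite_smul, one_smul, zero_smul]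
  | node a b iha ihb =>
    by_cases hb : cb K r Bo b = 0
    · have hna : nmk K r Bo (BT.node a b) = nmk K r Bo a := by simp only [nmk, hb, if_true]
      have hbk : bks K r Bo (BT.node a b) = bks K r Bo a ++ [b] := by simp only [bks, hb, if_true]
      rw [hna] at ht ⊢
      rw [hbk]
      obtain ⟨κ, hκ, ha⟩ := iha i j ht
      refine ⟨κ * (nmk K r Bo a : K), mul_ne_zero hκ (hN _ (nmk_pos a) ht), fun F s => ?_⟩
      simp only [lab, hb, if_true, ev, LinearMap.sub_apply, Module.End.mul_apply, Pi.sub_apply, ha, ev_pu,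
        ybl_append, ybl_single]
      split_ifs with hs
      · simp only [mul_smul_comm, ← mul_assoc, ybl_comm j (bks K r Bo a) _ b le_rfl]
        rw [smul_smul, smul_smul, ← sub_smul]
        congr 1
        push_cast; ring
      · simp
    · by_cases ha0 : cb K r Bo a = 0
      · have hna : nmk K r Bo (BT.node a b) = nmk K r Bo b := by simp only [nmk, hb, ha0, if_true, if_false]
        have hbk : bks K r Bo (BT.node a b) = bks K r Bo b ++ [a] := by simp only [bks, hb, ha0, if_true, if_false]
        rw [hna] at ht ⊢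
        rw [hbk]
        obtain ⟨κ, hκ, hb'⟩ := ihb i j ht
        refine ⟨-(κ * (nmk K r Bo b : K)), neg_ne_zero.2 (mul_ne_zero hκ (hN _ (nmk_pos b) ht)), fun F s => ?_⟩
        simp only [lab, hb, ha0, if_true, if_false, ev, LinearMap.sub_apply, Module.End.mul_apply, Pi.sub_apply,
          hb', ev_pu, ybl_append, ybl_single]
        split_ifs with hs
        · simp only [mul_smul_comm, ← mul_assoc, ybl_comm j (bks K r Bo b) _ a le_rfl]
          rw [smul_smul, smul_smul, ← sub_smul]
          congr 1
          push_cast; ring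
        · simp
      · have hna : nmk K r Bo (BT.node a b) = nmk K r Bo a + nmk K r Bo b := by
          simp only [nmk, hb, ha0, if_false]
        have hbk : bks K r Bo (BT.node a b) = bks K r Bo a ++ bks K r Bo b := by
          simp only [bks, hb, ha0, if_false]
        rw [hna] at ht ⊢
        rw [hbk]
        have hpa := nmk_pos (K := K) (r := r) (Bo := Bo) a
        have hpb := nmk_pos (K := K) (r := r) (Bo := Bo) b
        obtain ⟨κ, hκ, ha⟩ := iha i j (by omega)
        obtain ⟨κ', hκ', hb'⟩ := ihb (i + nmk K r Bo a) (j + (bks K r Bo a).length) (by omega)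
        refine ⟨κ * κ', mul_ne_zero hκ hκ', fun F s => ?_⟩
        simp only [lab, hb, ha0, if_false, ev, LinearMap.sub_apply, Module.End.mul_apply, Pi.sub_apply,
          ha, hb', ybl_append, Function.update_self, if_true, Function.update_idem]
        have h1 : ¬ (i + nmk K r Bo a + nmk K r Bo b = i) := by omega
        simp only [h1, if_false, mul_zero, smul_zero, ite_self, sub_zero]
        split_ifs with hs
        · rw [mul_smul_comm, smul_smul, ← mul_assoc, add_assoc, add_assoc]
        · rfl

end

end Pool.Agent.BC78.BH31
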