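import Pool.Agent.BC78.BH31.Build

/-! Level test: explicit labelled lists with nonzero value. -/

namespace Pool.Agent.BC78.BH31

open Pool.Agent.H25 Pool.Agent.BC78.BK Pool.Agent.BC78.BZ

variable {K : Type*} [Field K]

section
variable (K) (r : ℕ) (Bo : Option BT)

open Classical in
/-- all block shapes -/
noncomputable def absh : List BT → List BT
  | [] => []
  | g :: gs => (if cb K r Bo g = 0 then [g] else bks K r Bo g) ++ absh gs

open Classical in
/-- labelled list -/
noncomputable def labs : ℕ → ℕ → List BT → List (BK.LT Lr)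
  | _, _, [] => []
  | c, j, g :: gs =>
    if cb K r Bo g = 0 then pu K r Bo j g :: labs (c + 1) (j + 1) gs
    else lab K r Bo c 0 j g :: labs (c + 1) (j + (bks K r Bo g).length) gs

open Classical in
/-- constant of a block -/
noncomputable def zv (p : ℕ) (fl : Prop) (σ : BT) : K := if σ.lv = r ∧ ¬ fl then -((p - 1 : ℕ) : K) else 1

open Classical in
/-- constants of the blocks -/
noncomputable def zs (p : ℕ) : ℕ → List BT → List K
  | _, [] => []
  | M, g :: gs => (if cb K r Bo g = 0 then [zv K r p (M = p - 1) g] else (bks K r Bo g).map (zv K r p False)) ++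
      zs p (M + cb K r Bo g) gs

variable {K r Bo}

lemma labs_shape (c j : ℕ) (gs : List BT) : (labs K r Bo c j gs).map BK.LT.shape = gs := by
  induction gs generalizing c j with
  | nil => rfl
  | cons g gs ih =>
    simp only [labs]
    split_ifs <;> simp only [List.map_cons, ih, pu_shape, lab_shape]

lemma zs_length (p M : ℕ) (gs : List BT) : (zs K r Bo p M gs).length = (absh K r Bo gs).length := by
  induction gs generalizing M with
  | nil => rfl
  | cons g gs ih => simp only [zs, absh, List.length_append, ih]; split_ifs <;> simp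

open Classical in
/-- nonvanishing of the path constants -/
lemma ev_labs (p : ℕ) (hp : 1 ≤ p) (ze : ℕ → K) (N : ℕ) (hN : ∀ m : ℕ, 1 ≤ m → m ≤ N → ((m : ℕ) : K) ≠ 0)
    (gs : List BT) (M c j : ℕ) (hM : M + need K r Bo gs + 1 ≤ N) (hpN : p ≤ N)
    (hz : ∀ k (hk : k < (zs K r Bo p M gs).length), ze (j + k) = (zs K r Bo p M gs)[k]) :
    ∃ κ : K, κ ≠ 0 ∧ ∀ s : St, s.1 = M → (∀ c', c ≤ c' → s.2 c' = 0) →
      (((labs K r Bo c j gs).map (ev (op (fun _ => 1) ze))).prod) (fun _ => 1) s = κ • ybl K r Bo j (absh K r Bo gs) := by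
  induction gs generalizing M c j with
  | nil => exact ⟨1, one_ne_zero, fun s _ _ => by simp [labs, absh, ybl]⟩
  | cons g gs ih =>
    have hneed : need K r Bo (g :: gs) = cb K r Bo g + need K r Bo gs := by simp [need]
    rw [hneed] at hM
    by_cases hg : cb K r Bo g = 0
    · have ez : zs K r Bo p M (g :: gs) = zv K r p (M = p - 1) g :: zs K r Bo p (M + cb K r Bo g) gs := by
        simp only [zs, hg, if_true, List.singleton_append]
      rw [ez] at hz
      have hz0 := hz 0 (by simp)
      rw [add_zero, List.getElem_cons_zero] at hz0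
      rw [hg, add_zero] at hz
      obtain ⟨κ, hκ, h⟩ := ih M (c + 1) (j + 1) (by omega) (fun k hk => by
        have := hz (k + 1) (by simpa using hk)
        rw [List.getElem_cons_succ] at this
        rw [← this]; congr 1; omega)
      have hx : ((M : K) + ze j) ≠ 0 := by
        rw [hz0, zv]
        split_ifs with h1
        · rcases Nat.lt_or_gt_of_ne h1.2 with h2 | h2
          · have := hN (p - 1 - M) (by omega) (by omega)
            intro h3; apply this
            have e : ((p - 1 : ℕ) : K) = (M : K) + ((p - 1 - M : ℕ) : K) := by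
              rw [← Nat.cast_add]; congr 1; omega
            rw [e] at h3
            have : -((p - 1 - M : ℕ) : K) = 0 := by rw [← h3]; ring
            exact neg_eq_zero.1 this
          · have := hN (M - (p - 1)) (by omega) (by omega)
            intro h3; apply this
            have e : (M : K) = ((p - 1 : ℕ) : K) + ((M - (p - 1) : ℕ) : K) := by
              rw [← Nat.cast_add]; congr 1; omega
            rw [e] at h3
            rw [← h3]; ring
        · have := hN (M + 1) (by omega) (by omega)
          push_cast at this; exact this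
      refine ⟨((M : K) + ze j) * κ, mul_ne_zero hx hκ, fun s hs hs2 => ?_⟩
      simp only [labs, hg, if_true, List.map_cons, List.prod_cons, Module.End.mul_apply]
      rw [ev_pu, h s hs (fun c' hc' => hs2 c' (by omega)), hs, one_mul, mul_smul_comm, smul_smul]
      simp only [absh, hg, if_true, List.singleton_append, ybl]
    · have ez : zs K r Bo p M (g :: gs) = (bks K r Bo g).map (zv K r p False) ++ zs K r Bo p (M + cb K r Bo g) gs := by
        simp only [zs, hg, if_false]
      rw [ez] at hz
      have hnm : nmk K r Bo g = cb K r Bo g := by rw [nmk_eq]; omega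
      obtain ⟨κ, hκ, h⟩ := ih (M + cb K r Bo g) (c + 1) (j + (bks K r Bo g).length) (by omega) (fun k hk => by
        have := hz ((bks K r Bo g).length + k) (by rw [List.length_append, List.length_map]; omega)
        rw [List.getElem_append_right (by rw [List.length_map]; omega)] at this
        simp only [List.length_map, Nat.add_sub_cancel_left] at this
        rw [← this, add_assoc])
      obtain ⟨κ', hκ', h'⟩ := ev_lab (r := r) (Bo := Bo) ze c 0 j g N hN (by omega)
      refine ⟨κ' * κ, mul_ne_zero hκ' hκ, fun s hs hs2 => ?_⟩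
      simp only [labs, hg, if_false, List.map_cons, List.prod_cons, Module.End.mul_apply]
      rw [h', if_pos (hs2 c le_rfl), h]
      · simp only [absh, hg, if_false, ybl_append]
        rw [mul_smul_comm, smul_smul]
      · simp only [hs, hnm]
      · intro c' hc'
        show Function.update s.2 c (0 + nmk K r Bo g) c' = 0
        rw [Function.update_of_ne (by omega)]
        exact hs2 c' (by omega)

lemma bbw (j : ℕ) (w : List ℕ) : (w.map (fun i => (bb j i : B K))).prod =
    MonoidAlgebra.of K (ℕ → FreeMonoid ℕ) (Pi.mulSingle j (FreeMonoid.ofList w)) := by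
  induction w with
  | nil =>
    have : (Pi.mulSingle j (FreeMonoid.ofList ([] : List ℕ)) : ℕ → FreeMonoid ℕ) = 1 := by
      rw [FreeMonoid.ofList_nil]; exact Pi.mulSingle_one j
    rw [this, map_one]; rfl
  | cons i w ih =>
    rw [List.map_cons, List.prod_cons, ih, bb, ← map_mul, ← Pi.mulSingle_mul]
    rfl

/-- the value of the functional on the product of the blocks -/
lemma Psi_ybl (l : List BT) (ψ : ℕ → List ℕ → K) (j0 : ℕ)
    (hψ : ∀ k (hk : k < l.length), (pick K r Bo l[k]).val (ψ (j0 + k)) ≠ 0) :
    ∃ κ : K, κ ≠ 0 ∧ ∀ (m : ℕ → FreeMonoid ℕ), (∀ k, j0 ≤ k → m k = 1) →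
      Psi (j0 + l.length) ψ (MonoidAlgebra.of K _ m * ybl K r Bo j0 l) =
      (∏ k ∈ Finset.range j0, ψ k (FreeMonoid.toList (m k))) * κ := by
  induction l generalizing j0 with
  | nil =>
    refine ⟨1, one_ne_zero, fun m _ => ?_⟩
    simp only [ybl, mul_one, List.length_nil, add_zero]
    exact Psi_of _ _ _
  | cons σ l ih =>
    obtain ⟨κ, hκ, h⟩ := ih (j0 + 1) (fun k hk => by
      have := hψ (k + 1) (by simpa using hk)
      rw [List.getElem_cons_succ] at this
      rwa [show j0 + 1 + k = j0 + (k + 1) by omega])
    have h0 := hψ 0 (by simp)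
    rw [List.getElem_cons_zero, add_zero] at h0
    refine ⟨(pick K r Bo σ).val (ψ j0) * κ, mul_ne_zero h0 hκ, fun m hm => ?_⟩
    have hv := val_ev (fun i => (bb j0 i : B K)) (pick K r Bo σ)
      (Psi (j0 + (σ :: l).length) ψ ∘ₗ LinearMap.mulLeft K (MonoidAlgebra.of K _ m) ∘ₗ
        LinearMap.mulRight K (ybl K r Bo (j0 + 1) l))
    have hv2 : (Psi (j0 + (σ :: l).length) ψ ∘ₗ LinearMap.mulLeft K (MonoidAlgebra.of K _ m) ∘ₗ
        LinearMap.mulRight K (ybl K r Bo (j0 + 1) l)) (ev (fun i => (bb j0 i : B K)) (pick K r Bo σ)) =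
        Psi (j0 + (σ :: l).length) ψ (MonoidAlgebra.of K _ m * ybl K r Bo j0 (σ :: l)) := rfl
    rw [← hv2, ← hv]
    have hw : ∀ w : List ℕ, (Psi (j0 + (σ :: l).length) ψ ∘ₗ LinearMap.mulLeft K (MonoidAlgebra.of K _ m) ∘ₗ
        LinearMap.mulRight K (ybl K r Bo (j0 + 1) l)) ((w.map (fun i => (bb j0 i : B K))).prod) =
        ((∏ k ∈ Finset.range j0, ψ k (FreeMonoid.toList (m k))) * κ) * ψ j0 w := by
      intro w
      rw [bbw]
      show Psi (j0 + (σ :: l).length) ψ (MonoidAlgebra.of K _ m * (MonoidAlgebra.of K _ (Pi.mulSingle j0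
        (FreeMonoid.ofList w)) * ybl K r Bo (j0 + 1) l)) = _
      rw [← mul_assoc, ← map_mul, List.length_cons, show j0 + (l.length + 1) = j0 + 1 + l.length by omega, h]
      · rw [Finset.prod_range_succ]
        have e1 : (m * (Pi.mulSingle j0 (FreeMonoid.ofList w) : ℕ → FreeMonoid ℕ)) j0 = FreeMonoid.ofList w := by
          rw [Pi.mul_apply, hm j0 le_rfl, Pi.mulSingle_eq_same, one_mul]
        have e2 : ∀ k ∈ Finset.range j0, ψ k (FreeMonoid.toList ((m * (Pi.mulSingle j0 (FreeMonoid.ofList w) :
            ℕ → FreeMonoid ℕ)) k)) = ψ k (FreeMonoid.toList (m k)) := by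
          intro k hk
          rw [Finset.mem_range] at hk
          rw [Pi.mul_apply, Pi.mulSingle_eq_of_ne (by omega), mul_one]
        rw [e1, Finset.prod_congr rfl e2]
        show _ * ψ j0 w * κ = _
        ring
      · intro k hk
        rw [Pi.mul_apply, hm k (by omega), Pi.mulSingle_eq_of_ne (by omega), mul_one]
    simp only [hw]
    rw [val_mul_left]
    ring

/-- marks of a class -/
def Em (c i n : ℕ) : List Lr := (List.range n).map (fun k => Lr.mk c (i + k))

/-- all marks -/
noncomputable def EM (K : Type*) [Field K] (r : ℕ) (Bo : Option BT) : ℕ → List BT → List Lr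
  | _, [] => []
  | c, g :: gs => Em c 0 (cb K r Bo g) ++ EM K r Bo (c + 1) gs

/-- all block letters -/
def Eb : ℕ → List BT → List Lr
  | _, [] => []
  | j, σ :: l => (List.range σ.lv).map (Lr.bl j) ++ Eb (j + 1) l

lemma Eb_append (j : ℕ) (l l' : List BT) : Eb j (l ++ l') = Eb j l ++ Eb (j + l.length) l' := by
  induction l generalizing j with
  | nil => simp [Eb]
  | cons σ l ih =>
    simp only [List.cons_append, Eb, ih, List.length_cons, List.append_assoc]
    rw [show j + 1 + l.length = j + (l.length + 1) by omega]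

lemma pu_leaves (j : ℕ) (σ : BT) : (pu K r Bo j σ).leaves = (List.range σ.lv).map (Lr.bl j) := by
  rw [pu, leaves_map, (pick_spec r Bo σ).2.1]

lemma Em_append (c i m n : ℕ) : Em c i (m + n) = Em c i m ++ Em c (i + m) n := by
  simp only [Em, List.range_add, List.map_append, List.map_map]
  congr 1
  refine List.map_congr_left (fun k _ => ?_)
  simp [add_assoc]

lemma lab_leaves (c i j : ℕ) (t : BT) :
    (lab K r Bo c i j t).leaves.Perm (Em c i (nmk K r Bo t) ++ Eb j (bks K r Bo t)) := by
  induction t generalizing i j with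
  | leaf => simp [lab, BK.LT.leaves, Em, nmk, bks, Eb]
  | node a b iha ihb =>
    by_cases hb : cb K r Bo b = 0
    · simp only [lab, hb, if_true, BK.LT.leaves, nmk, bks, pu_leaves, Eb_append, Eb, List.append_nil]
      rw [← List.append_assoc]
      exact (iha i j).append_right _
    · by_cases ha : cb K r Bo a = 0
      · simp only [lab, hb, ha, if_true, if_false, BK.LT.leaves, nmk, bks, pu_leaves, Eb_append, Eb, List.append_nil]
        rw [← List.append_assoc]
        exact List.perm_append_comm.trans ((ihb i j).append_right _)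
      · simp only [lab, hb, ha, if_false, BK.LT.leaves, nmk, bks, Eb_append, Em_append]
        refine ((iha i j).append (ihb _ _)).trans ?_
        simp only [List.append_assoc]
        refine List.Perm.append_left _ ?_
        simp only [← List.append_assoc]
        exact List.Perm.append_right _ List.perm_append_comm

lemma labs_leaves (c j : ℕ) (gs : List BT) :
    (lvs (labs K r Bo c j gs)).Perm (EM K r Bo c gs ++ Eb j (absh K r Bo gs)) := by
  induction gs generalizing c j with
  | nil => simp [labs, lvs, EM, absh, Eb]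
  | cons g gs ih =>
    by_cases hg : cb K r Bo g = 0
    · have e : Em c 0 0 = [] := rfl
      simp only [labs, hg, if_true, lvs_cons, pu_leaves, EM, e, List.nil_append, absh, List.singleton_append, Eb]
      refine ((ih (c + 1) (j + 1)).append_left _).trans ?_
      rw [← List.append_assoc, ← List.append_assoc]
      exact List.perm_append_comm.append_right _
    · have hnm : nmk K r Bo g = cb K r Bo g := by rw [nmk_eq]; omega
      simp only [labs, hg, if_false, lvs_cons, EM, absh, Eb_append]
      have h1 := lab_leaves (K := K) (r := r) (Bo := Bo) c 0 j g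
      rw [hnm] at h1
      refine (h1.append (ih (c + 1) (j + (bks K r Bo g).length))).trans ?_
      simp only [List.append_assoc]
      refine List.Perm.append_left _ ?_
      simp only [← List.append_assoc]
      exact List.Perm.append_right _ List.perm_append_comm

lemma mem_Eb (j : ℕ) (l : List BT) (x : Lr) :
    x ∈ Eb j l ↔ ∃ k i, x = Lr.bl k i ∧ j ≤ k ∧ i < (l.map BT.lv).getD (k - j) 0 := by
  induction l generalizing j with
  | nil => simp [Eb]
  | cons σ l ih =>
    rw [Eb, List.mem_append, ih, List.mem_map]
    constructor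
    · rintro (⟨i, hi, rfl⟩ | ⟨k, i, rfl, hk, hi⟩)
      · exact ⟨j, i, rfl, le_rfl, by simpa using List.mem_range.1 hi⟩
      · refine ⟨k, i, rfl, by omega, ?_⟩
        rw [show k - j = (k - (j + 1)) + 1 by omega]
        simpa using hi
    · rintro ⟨k, i, rfl, hk, hi⟩
      rcases Nat.eq_or_lt_of_le hk with rfl | hlt
      · left; exact ⟨i, List.mem_range.2 (by simpa using hi), rfl⟩
      · right
        refine ⟨k, i, rfl, by omega, ?_⟩
        rw [show k - j = (k - (j + 1)) + 1 by omega] at hi
        simpa using hi

lemma Eb_nodup (j : ℕ) (l : List BT) : (Eb j l).Nodup := by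
  induction l generalizing j with
  | nil => exact List.nodup_nil
  | cons σ l ih =>
    rw [Eb, List.nodup_append]
    refine ⟨?_, ih _, ?_⟩
    · refine List.nodup_range.map ?_
      intro a b h; injection h
    · intro x hx y hy hxy
      subst hxy
      obtain ⟨i, _, rfl⟩ := List.mem_map.1 hx
      obtain ⟨k, i', h, hk, _⟩ := (mem_Eb _ _ _).1 hy
      injection h with h1 h2
      omega

lemma mem_EM (c : ℕ) (gs : List BT) (x : Lr) (h : x ∈ EM K r Bo c gs) : ∃ c' i, x = Lr.mk c' i ∧ c ≤ c' := by
  induction gs generalizing c with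
  | nil => simp [EM] at h
  | cons g gs ih =>
    rw [EM, List.mem_append] at h
    rcases h with h | h
    · obtain ⟨i, _, rfl⟩ := List.mem_map.1 h
      exact ⟨c, _, rfl, le_rfl⟩
    · obtain ⟨c', i, h1, h2⟩ := ih _ h
      exact ⟨c', i, h1, by omega⟩

lemma EM_nodup (c : ℕ) (gs : List BT) : (EM K r Bo c gs).Nodup := by
  induction gs generalizing c with
  | nil => exact List.nodup_nil
  | cons g gs ih =>
    rw [EM, List.nodup_append]
    refine ⟨?_, ih _, ?_⟩
    · refine List.nodup_range.map ?_
      intro a b h; injection h with h1 h2; omega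
    · intro x hx y hy hxy
      subst hxy
      obtain ⟨i, _, rfl⟩ := List.mem_map.1 hx
      obtain ⟨k, i', h, hk⟩ := mem_EM _ _ _ hy
      injection h with h1 h2
      omega

lemma countP_Em (c c' i n : ℕ) : (Em c' i n).countP (isC c) = if c' = c then n else 0 := by
  split_ifs with h
  · rw [List.countP_eq_length.2]
    · simp [Em]
    · intro x hx
      obtain ⟨k, _, rfl⟩ := List.mem_map.1 hx
      simp [isC, h]
  · rw [List.countP_eq_zero]
    intro x hx
    obtain ⟨k, _, rfl⟩ := List.mem_map.1 hx
    simp [isC, h]

lemma countP_EM (p : ℕ) (hp : 1 ≤ p) (c c0 : ℕ) (gs : List BT) (hgs : ∀ g ∈ gs, cb K r Bo g < p) :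
    (EM K r Bo c0 gs).countP (isC c) < p ∧ (c < c0 → (EM K r Bo c0 gs).countP (isC c) = 0) := by
  induction gs generalizing c0 with
  | nil => simp [EM]; omega
  | cons g gs ih =>
    have ih' := ih (c0 + 1) (fun g hg => hgs g (List.mem_cons_of_mem _ hg))
    have hg := hgs g (List.mem_cons_self ..)
    rw [EM, List.countP_append, countP_Em]
    split_ifs with h
    · have := ih'.2 (by omega)
      rw [this]
      exact ⟨by omega, fun h' => by omega⟩
    · exact ⟨by omega, fun h' => by have := ih'.2 (by omega); omega⟩

lemma countP_EM_M (c0 : ℕ) (gs : List BT) : (EM K r Bo c0 gs).countP isM = need K r Bo gs := by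
  induction gs generalizing c0 with
  | nil => simp [EM, need]
  | cons g gs ih =>
    have : (Em c0 0 (cb K r Bo g)).countP isM = cb K r Bo g := by
      rw [List.countP_eq_length.2]
      · simp [Em]
      · intro x hx
        obtain ⟨k, _, rfl⟩ := List.mem_map.1 hx
        simp [isM]
    rw [EM, List.countP_append, ih, this]
    simp [need]

lemma countP_Eb (j : ℕ) (l : List BT) (f : Lr → Bool) (hf : ∀ j i, f (Lr.bl j i) = false) : (Eb j l).countP f = 0 := by
  rw [List.countP_eq_zero]
  intro x hx
  obtain ⟨k, i, rfl, _⟩ := (mem_Eb _ _ _).1 hx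
  simp [hf]

end

end Pool.Agent.BC78.BH31
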