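import Pool.Agent.BC78.BH31.Kill2

/-! Level test: products which need too many marks are killed. -/

namespace Pool.Agent.BC78.BH31

open Pool.Agent.H25 Pool.Agent.BC78.BK Pool.Agent.BC78.BZ

variable {K : Type*} [Field K]

/-- forward product value -/
def lvl {α : Type} : List (BK.LT α) → (List α → K) → K
  | [], φ => φ []
  | R :: Rs, φ => R.val (fun p => lvl Rs (fun q => φ (p ++ q)))

/-- all letters of a list of trees -/
def lvs {α : Type} (Rs : List (BK.LT α)) : List α := Rs.flatMap BK.LT.leaves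

lemma lvs_cons {α : Type} (R : BK.LT α) (Rs : List (BK.LT α)) : lvs (R :: Rs) = R.leaves ++ lvs Rs := by
  simp [lvs]

lemma lvs_append {α : Type} (Rs Ss : List (BK.LT α)) : lvs (Rs ++ Ss) = lvs Rs ++ lvs Ss := by
  simp [lvs]

lemma lvl_congr {α : Type} (Rs : List (BK.LT α)) {φ χ : List α → K} (h : ∀ w, w.Perm (lvs Rs) → φ w = χ w) :
    lvl Rs φ = lvl Rs χ := by
  induction Rs generalizing φ χ with
  | nil => exact h [] (List.Perm.refl _)
  | cons R Rs ih =>
    rw [lvl, lvl]
    refine val_congr R (fun p hp => ih (fun q hq => h _ ?_))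
    rw [lvs_cons]; exact hp.append hq

lemma lvl_zero {α : Type} (Rs : List (BK.LT α)) : lvl Rs (fun _ => (0 : K)) = 0 := by
  induction Rs with
  | nil => rfl
  | cons R Rs ih => rw [lvl]; simp only [ih]; exact val_zero R

lemma lvl_mem {α : Type} (Rs : List (BK.LT α)) {φ : List α → K} {R : BK.LT α} (hR : R ∈ Rs)
    (h : ∀ u v, R.val (fun w => φ (u ++ w ++ v)) = 0) : lvl Rs φ = 0 := by
  induction Rs generalizing φ with
  | nil => simp at hR
  | cons S Rs ih =>
    rw [lvl]
    rcases List.mem_cons.1 hR with rfl | hR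
    · have : ∀ (Ss : List (BK.LT α)) (χ : List α → List α → K) (hh : ∀ q, R.val (fun p => χ p q) = 0),
          R.val (fun p => lvl Ss (fun q => χ p q)) = 0 := by
        intro Ss
        induction Ss with
        | nil => intro χ hh; exact hh []
        | cons T Ss ih2 =>
          intro χ hh
          simp only [lvl]
          rw [val_val]
          have : ∀ q, R.val (fun p => lvl Ss (fun q_1 => χ p (q ++ q_1))) = 0 := fun q =>
            ih2 (fun p q1 => χ p (q ++ q1)) (fun q1 => hh _)
          simp only [this]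
          exact val_zero T
      refine this Rs (fun p q => φ (p ++ q)) (fun q => ?_)
      simpa using h [] q
    · have : ∀ p, lvl Rs (fun q => φ (p ++ q)) = 0 := fun p => ih hR (fun u v => by
        simpa only [List.append_assoc] using h (p ++ u) v)
      simp only [this]
      exact val_zero S

/-- homogeneity -/
def Hm (m : ℕ) (T : Module.End K (St → B K)) : Prop :=
  ∀ (t : ℕ) (G : St → B K), (∀ s : St, s.1 = t + m → G s = 0) → ∀ s : St, s.1 = t → T G s = 0

lemma Hm.mul {m n : ℕ} {T U : Module.End K (St → B K)} (hT : Hm m T) (hU : Hm n U) : Hm (m + n) (T * U) := by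
  intro t G hG s hs
  rw [Module.End.mul_apply]
  refine hT t _ (fun s' hs' => hU (t + m) _ (fun s'' hs'' => hG s'' (by rw [hs'', add_assoc])) s' hs') s hs

lemma Hm.sub {m : ℕ} {T U : Module.End K (St → B K)} (hT : Hm m T) (hU : Hm m U) : Hm m (T - U) := by
  intro t G hG s hs
  rw [LinearMap.sub_apply, Pi.sub_apply, hT t G hG s hs, hU t G hG s hs, sub_zero]

lemma Hm_ev (th ze : ℕ → K) (R : BK.LT Lr) : Hm (R.leaves.countP isM) (ev (op th ze) R) := by
  induction R with
  | leaf x =>
    intro t G hG s hs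
    show op th ze x G s = 0
    rw [op_apply, hG, mul_zero, smul_zero]
    cases x with
    | mk c i => simp [sh, BK.LT.leaves, isM, hs]
    | bl j i => simp [sh, BK.LT.leaves, isM, hs]
  | node a b iha ihb =>
    show Hm ((a.leaves ++ b.leaves).countP isM) _
    rw [List.countP_append]
    refine Hm.sub (iha.mul ihb) ?_
    rw [add_comm]; exact ihb.mul iha

lemma Hm_list (th ze : ℕ → K) (Rs : List (BK.LT Lr)) :
    Hm ((lvs Rs).countP isM) ((Rs.map (ev (op th ze))).prod) := by
  induction Rs with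
  | nil => intro t G hG s hs; exact hG s (by simp [lvs, hs])
  | cons R Rs ih =>
    rw [lvs_cons, List.countP_append, List.map_cons, List.prod_cons]
    exact (Hm_ev th ze R).mul ih

section
variable {r : ℕ} {Bo : Option BT} {p : ℕ} {th ze : ℕ → K} {J : ℕ} {sz : ℕ → ℕ} {ψ : ℕ → List ℕ → K} {E : List Lr}

lemma lvl_lin (Rs : List (BK.LT Lr)) (Λ : Module.End K (St → B K) →ₗ[K] K) :
    lvl Rs (fun w => Λ ((w.map (op th ze)).prod)) = Λ ((Rs.map (ev (op th ze))).prod) := by
  induction Rs generalizing Λ with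
  | nil => simp [lvl]
  | cons R Rs ih =>
    rw [lvl]
    have : ∀ p : List Lr, lvl Rs (fun q => Λ (((p ++ q).map (op th ze)).prod)) =
        Λ ((p.map (op th ze)).prod * (Rs.map (ev (op th ze))).prod) := by
      intro p
      have := ih (Λ ∘ₗ LinearMap.mulLeft K (p.map (op th ze)).prod)
      simpa [List.map_append, List.prod_append] using this
    simp only [this]
    have := val_ev (op th ze) R (Λ ∘ₗ LinearMap.mulRight K (Rs.map (ev (op th ze))).prod)
    simpa using this

lemma lvl_phi (Rs : List (BK.LT Lr)) (hp : (lvs Rs).Perm E) :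
    lvl Rs (phi th ze J ψ E) = Lam J ψ ((Rs.map (ev (op th ze))).prod) := by
  rw [← lvl_lin]
  refine lvl_congr Rs (fun w hw => ?_)
  rw [phi, if_pos (hw.trans hp)]

lemma lvl_np (Rs : List (BK.LT Lr)) (hp : ¬ (lvs Rs).Perm E) : lvl Rs (phi th ze J ψ E) = 0 := by
  rw [← lvl_zero (K := K) Rs]
  refine lvl_congr Rs (fun w hw => ?_)
  rw [phi, if_neg]
  exact fun h => hp (hw.symm.trans h)

lemma alive_cb (h : HE K r Bo p th ze J sz ψ E) {Rs : List (BK.LT Lr)} (hne : lvl Rs (phi th ze J ψ E) ≠ 0) :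
    ∀ R ∈ Rs, cb K r Bo R.shape ≤ R.leaves.countP isM := by
  intro R hR
  refine cb_le R (fun S hS hpu hb => hne ?_)
  exact lvl_mem Rs hR (fun u v => clade_zero hS (fun u' v' => by
    have := kill_pure h S hpu hb (u ++ u') (v' ++ v)
    simpa only [List.append_assoc] using this))

lemma need_le (Rs : List (BK.LT Lr)) (h : ∀ R ∈ Rs, cb K r Bo R.shape ≤ R.leaves.countP isM) :
    need K r Bo (Rs.map BK.LT.shape) ≤ (lvs Rs).countP isM ∧
      (need K r Bo (Rs.map BK.LT.shape) = (lvs Rs).countP isM → ∀ R ∈ Rs, cb K r Bo R.shape = R.leaves.countP isM) := by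
  induction Rs with
  | nil => simp [need, lvs]
  | cons R Rs ih =>
    have h1 := h R (List.mem_cons_self ..)
    have ih' := ih (fun R hR => h R (List.mem_cons_of_mem _ hR))
    have e : need K r Bo ((R :: Rs).map BK.LT.shape) = cb K r Bo R.shape + need K r Bo (Rs.map BK.LT.shape) := by
      simp [need]
    rw [e, lvs_cons, List.countP_append]
    refine ⟨by omega, fun heq S hS => ?_⟩
    rcases List.mem_cons.1 hS with rfl | hS
    · omega
    · exact ih'.2 (by omega) S hS

open Classical in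
/-- the generic blocks -/
noncomputable def Gen (r p : ℕ) (th ze : ℕ → K) (J : ℕ) (sz : ℕ → ℕ) : Finset ℕ :=
  (Finset.range J).filter (fun j => sz j = r ∧ th j * ((p - 1 : ℕ) : K) + ze j ≠ 0)

open Classical in
lemma cent_le {Gn : Finset ℕ} (Rs : List (BK.LT Lr)) (hn : (lvs Rs).Nodup)
    (hcb : ∀ R ∈ Rs, cb K r Bo R.shape = R.leaves.countP isM) (t : ℕ)
    (hsp : ∀ Ps R Ss, Rs = Ps ++ R :: Ss → R.shape.lv = r → cb K r Bo R.shape = 0 →
      (lvs Ps).countP isM = t → ∃ j ∈ Gn, Lr.bl j 0 ∈ R.leaves) :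
    cent K r Bo t (Rs.map BK.LT.shape) ≤ (Gn.filter (fun j => Lr.bl j 0 ∈ lvs Rs)).card := by
  induction Rs generalizing t with
  | nil => simp [cent]
  | cons R Rs ih =>
    rw [lvs_cons] at hn
    show (if t = 0 ∧ R.shape.lv = r ∧ cb K r Bo R.shape = 0 then 1 else 0) +
      (if cb K r Bo R.shape ≤ t then cent K r Bo (t - cb K r Bo R.shape) (Rs.map BK.LT.shape) else 0) ≤ _
    have hsub : (Gn.filter (fun j => Lr.bl j 0 ∈ R.leaves)).card + (Gn.filter (fun j => Lr.bl j 0 ∈ lvs Rs)).card ≤
        (Gn.filter (fun j => Lr.bl j 0 ∈ lvs (R :: Rs))).card := by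
      rw [← Finset.card_union_of_disjoint]
      · refine Finset.card_le_card ?_
        intro j hj
        rw [Finset.mem_union, Finset.mem_filter, Finset.mem_filter] at hj
        rw [Finset.mem_filter, lvs_cons, List.mem_append]
        rcases hj with hj | hj
        · exact ⟨hj.1, Or.inl hj.2⟩
        · exact ⟨hj.1, Or.inr hj.2⟩
      · rw [Finset.disjoint_left]
        intro j hj hj'
        exact List.disjoint_of_nodup_append hn (Finset.mem_filter.1 hj).2 (Finset.mem_filter.1 hj').2
    refine le_trans (Nat.add_le_add ?_ ?_) hsub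
    · split_ifs with hc
      · obtain ⟨j, hj, hj'⟩ := hsp [] R Rs rfl hc.2.1 hc.2.2 (by simp [lvs, hc.1])
        exact Finset.card_pos.2 ⟨j, Finset.mem_filter.2 ⟨hj, hj'⟩⟩
      · exact Nat.zero_le _
    · split_ifs with hc
      · refine ih hn.of_append_right (fun R' hR' => hcb R' (List.mem_cons_of_mem _ hR')) _ ?_
        intro Ps R' Ss he h1 h2 h3
        refine hsp (R :: Ps) R' Ss (by rw [he]; rfl) h1 h2 ?_
        rw [lvs_cons, List.countP_append, h3, ← hcb R (List.mem_cons_self ..)]
        omega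
      · exact Nat.zero_le _

open Classical in
/-- (iii) -/
theorem not_needed (h : HE K r Bo p th ze J sz ψ E) (hr : 1 ≤ r) {Rs : List (BK.LT Lr)}
    (hne : lvl Rs (phi th ze J ψ E) ≠ 0) :
    need K r Bo (Rs.map BK.LT.shape) ≤ E.countP isM ∧
      (need K r Bo (Rs.map BK.LT.shape) = E.countP isM →
        cent K r Bo (p - 1) (Rs.map BK.LT.shape) ≤ (Gen r p th ze J sz).card) := by
  have hp : (lvs Rs).Perm E := by
    by_contra hp; exact hne (lvl_np Rs hp)
  have hcb := alive_cb h hne
  have hne2 := need_le Rs hcb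
  rw [hp.countP_eq] at hne2
  refine ⟨hne2.1, fun heq => ?_⟩
  have hcb2 := hne2.2 heq
  have hnd : (lvs Rs).Nodup := hp.nodup_iff.2 h.nd
  refine le_trans (cent_le (Gn := Gen r p th ze J sz) Rs hnd hcb2 (p - 1) ?_)
    (Finset.card_le_card (Finset.filter_subset _ _))
  intro Ps R Ss he hR hR0 ht
  have hRm : R ∈ Rs := by rw [he]; simp
  have hRs : lvs Rs = lvs Ps ++ (R.leaves ++ lvs Ss) := by rw [he, lvs_append, lvs_cons]
  have hn : R.leaves.Nodup := by rw [hRs] at hnd; exact hnd.of_append_right.of_append_left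
  have hsub : ∀ x ∈ R.leaves, x ∈ E := fun x hx => hp.mem_iff.1 (by rw [hRs]; simp [hx])
  have hpu : R.leaves.countP isM = 0 := by rw [← hcb2 R hRm, hR0]
  rw [List.countP_eq_zero] at hpu
  have hval : lvl Rs (phi th ze J ψ E) = Psi J ψ (((Ps.map (ev (op th ze))).prod)
      ((ev (op th ze) R) (((Ss.map (ev (op th ze))).prod) (fun _ => 1))) s0) := by
    rw [lvl_phi Rs hp, he, List.map_append, List.map_cons, List.prod_append, List.prod_cons]
    rfl
  rcases key th ze R hn with h0 | ⟨j, y, h1, h2, h3⟩ | ⟨c, i, k, κ, y, ⟨_, i', hi'⟩, _⟩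
  · exfalso; apply hne; rw [hval, h0]; simp
  · obtain ⟨hjJ, hle, hfull⟩ := full h R hn hsub h1
    have hszr := (h.szr j hjJ).2
    have hszj : sz j = r := by omega
    have hsp := (hfull (by omega)).2 0 (by omega)
    refine ⟨j, ?_, hsp⟩
    rw [Gen, Finset.mem_filter]
    refine ⟨Finset.mem_range.2 hjJ, hszj, fun hz => hne ?_⟩
    rw [hval]
    have hH := Hm_list th ze Ps 0 ((ev (op th ze) R) (((Ss.map (ev (op th ze))).prod) (fun _ => 1))) ?_ s0 rfl
    · rw [hH, map_zero]
    · intro s hs
      rw [h3, if_pos hsp, hs, ht, zero_add, hz, zero_smul]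
  · have := hpu _ hi'
    simp [isM] at this

end

end Pool.Agent.BC78.BH31
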