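import Pool.Agent.BC78.BK.R1

/-! Level test functional with commuting classes of marks. -/

namespace Pool.Agent.BC78.BH31

open Pool.Agent.H25 Pool.Agent.BC78.BK

/-- letters: marks `mk c i` of class `c` and letters `bl j i` of block `j` -/
inductive Lr where
  | mk : ℕ → ℕ → Lr
  | bl : ℕ → ℕ → Lr
deriving DecidableEq

/-- block algebra -/
abbrev B (K : Type*) [Field K] := MonoidAlgebra K (ℕ → FreeMonoid ℕ)

variable {K : Type*} [Field K]

/-- letters of the block algebra -/
noncomputable def bb (j i : ℕ) : B K := MonoidAlgebra.of K (ℕ → FreeMonoid ℕ) (Pi.mulSingle j (FreeMonoid.of i))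

/-- states of the counters -/
abbrev St := ℕ × (ℕ → ℕ)

/-- operators -/
noncomputable def op (th ze : ℕ → K) : Lr → Module.End K (St → B K)
  | Lr.mk c i =>
    { toFun := fun F s => if s.2 c = i then F (s.1 + 1, Function.update s.2 c (i + 1)) else 0
      map_add' := by intro F G; ext1 s; simp only [Pi.add_apply]; split_ifs <;> simp
      map_smul' := by intro a F; ext1 s; simp only [Pi.smul_apply, RingHom.id_apply]; split_ifs <;> simp }
  | Lr.bl j i =>
    { toFun := fun F s => (if i = 0 then th j * s.1 + ze j else 1) • (bb j i * F s)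
      map_add' := by intro F G; ext1 s; simp only [Pi.add_apply, mul_add, smul_add]
      map_smul' := by
        intro a F; ext1 s
        simp only [Pi.smul_apply, RingHom.id_apply, mul_smul_comm]
        rw [smul_comm] }

/-- commutator evaluation -/
noncomputable def ev {α : Type} {A : Type*} [Ring A] (f : α → A) : BK.LT α → A
  | BK.LT.leaf x => f x
  | BK.LT.node a b => ev f a * ev f b - ev f b * ev f a

lemma val_ev {α : Type} {A : Type*} [Ring A] [Algebra K A] (f : α → A) (L : BK.LT α) (Λ : A →ₗ[K] K) :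
    L.val (fun w => Λ (w.map f).prod) = Λ (ev f L) := by
  induction L generalizing Λ with
  | leaf x => simp [BK.LT.val, ev]
  | node a b iha ihb =>
    simp only [BK.LT.val, ev, map_sub]
    congr 1
    · have h1 : ∀ p : List α, b.val (fun q => Λ ((p ++ q).map f).prod) = Λ ((p.map f).prod * ev f b) := by
        intro p
        have := ihb (Λ ∘ₗ LinearMap.mulLeft K (p.map f).prod)
        simpa [List.map_append, List.prod_append] using this
      simp only [h1]
      have := iha (Λ ∘ₗ LinearMap.mulRight K (ev f b))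
      simpa using this
    · have h1 : ∀ q : List α, a.val (fun p => Λ ((q ++ p).map f).prod) = Λ ((q.map f).prod * ev f a) := by
        intro p
        have := iha (Λ ∘ₗ LinearMap.mulLeft K (p.map f).prod)
        simpa [List.map_append, List.prod_append] using this
      simp only [h1]
      have := ihb (Λ ∘ₗ LinearMap.mulRight K (ev f a))
      simpa using this


/-- subalgebra of a set of blocks -/
noncomputable def adj (K : Type*) [Field K] (S : Set ℕ) : Subalgebra K (B K) :=
  Algebra.adjoin K {z | ∃ j ∈ S, ∃ i, z = bb j i}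

lemma bb_mem {S : Set ℕ} {j : ℕ} (h : j ∈ S) (i : ℕ) : (bb j i : B K) ∈ adj K S :=
  Algebra.subset_adjoin ⟨j, h, i, rfl⟩

lemma bb_comm {j k : ℕ} (h : j ≠ k) (i l : ℕ) : Commute (bb j i : B K) (bb k l) := by
  have : Commute (Pi.mulSingle j (FreeMonoid.of i) : ℕ → FreeMonoid ℕ) (Pi.mulSingle k (FreeMonoid.of l)) :=
    Pi.mulSingle_commute h _ _
  exact this.map (MonoidAlgebra.of K (ℕ → FreeMonoid ℕ))

lemma adj_mono {S T : Set ℕ} (h : S ⊆ T) : adj K S ≤ adj K T :=
  Algebra.adjoin_mono (by rintro z ⟨j, hj, i, rfl⟩; exact ⟨j, h hj, i, rfl⟩)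

lemma adj_comm {S T : Set ℕ} (h : Disjoint S T) {y z : B K} (hy : y ∈ adj K S) (hz : z ∈ adj K T) :
    y * z = z * y := by
  have h1 : ∀ j ∈ T, ∀ i, Commute (bb j i) y := by
    intro j hj i
    refine Algebra.adjoin_induction (p := fun y _ => Commute (bb j i) y) ?_ ?_ ?_ ?_ hy
    · rintro x ⟨k, hk, l, rfl⟩
      exact bb_comm (by rintro rfl; exact Set.disjoint_left.1 h hk hj) _ _
    · intro r; exact (Algebra.commutes r (bb j i)).symm
    · intro a b _ _ ha hb; exact ha.add_right hb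
    · intro a b _ _ ha hb; exact ha.mul_right hb
  refine Algebra.adjoin_induction (p := fun z _ => y * z = z * y) ?_ ?_ ?_ ?_ hz
  · rintro x ⟨k, hk, l, rfl⟩
    exact (h1 k hk l).symm
  · intro r; exact (Algebra.commutes r y).symm
  · intro a b _ _ ha hb; rw [mul_add, add_mul, ha, hb]
  · intro a b _ _ ha hb; rw [← mul_assoc, ha, mul_assoc, hb, mul_assoc]

/-- normal form of the operator of a Lie monomial with leaves `l` -/
def Form (th ze : ℕ → K) (l : List Lr) (T : Module.End K (St → B K)) : Prop :=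
  T = 0 ∨
  (∃ j y, (∀ x ∈ l, ∃ i, x = Lr.bl j i) ∧ y ∈ adj K {j} ∧
    ∀ F s, T F s = (if Lr.bl j 0 ∈ l then th j * s.1 + ze j else 1) • (y * F s)) ∨
  (∃ c i k κ y, (1 ≤ k ∧ ∃ i', Lr.mk c i' ∈ l) ∧ (∀ c' i', Lr.mk c' i' ∈ l → c' = c) ∧ y ∈ adj K {j | Lr.bl j 0 ∈ l} ∧
    ∀ F s, T F s = if s.2 c = i then (κ : K) • (y * F (s.1 + k, Function.update s.2 c (i + k))) else 0)

lemma Form.neg {th ze : ℕ → K} {l : List Lr} {T : Module.End K (St → B K)} (h : Form th ze l T) :
    Form th ze l (-T) := by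
  rcases h with h | ⟨j, y, h1, h2, h3⟩ | ⟨c, i, k, κ, y, h0, h1, h2, h3⟩
  · left; rw [h, neg_zero]
  · refine Or.inr (Or.inl ⟨j, -y, h1, neg_mem h2, fun F s => ?_⟩)
    rw [LinearMap.neg_apply, Pi.neg_apply, h3, neg_mul, smul_neg]
  · refine Or.inr (Or.inr ⟨c, i, k, κ, -y, h0, h1, neg_mem h2, fun F s => ?_⟩)
    rw [LinearMap.neg_apply, Pi.neg_apply, h3]
    split_ifs <;> simp

lemma Form.perm {th ze : ℕ → K} {l l' : List Lr} (hp : l.Perm l') {T : Module.End K (St → B K)}
    (h : Form th ze l T) : Form th ze l' T := by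
  rcases h with h | ⟨j, y, h1, h2, h3⟩ | ⟨c, i, k, κ, y, h0, h1, h2, h3⟩
  · exact Or.inl h
  · refine Or.inr (Or.inl ⟨j, y, fun x hx => h1 x (hp.mem_iff.2 hx), h2, fun F s => ?_⟩)
    rw [h3]; simp only [hp.mem_iff]
  · refine Or.inr (Or.inr ⟨c, i, k, κ, y, ⟨h0.1, h0.2.imp fun _ h => hp.mem_iff.1 h⟩,
      fun c' i' hx => h1 c' i' (hp.mem_iff.2 hx), ?_, h3⟩)
    simpa only [hp.mem_iff] using h2

lemma Form.pp {th ze : ℕ → K} {l l' : List Lr} (hn : (l ++ l').Nodup) {T T' : Module.End K (St → B K)}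
    {j j' : ℕ} {y y' : B K}
    (h1 : ∀ x ∈ l, ∃ i, x = Lr.bl j i) (h2 : y ∈ adj K {j})
    (h3 : ∀ F s, T F s = (if Lr.bl j 0 ∈ l then th j * s.1 + ze j else 1) • (y * F s))
    (h1' : ∀ x ∈ l', ∃ i, x = Lr.bl j' i) (h2' : y' ∈ adj K {j'})
    (h3' : ∀ F s, T' F s = (if Lr.bl j' 0 ∈ l' then th j' * s.1 + ze j' else 1) • (y' * F s)) :
    Form th ze (l ++ l') (T * T' - T' * T) := by
  by_cases hj : j = j'
  · subst hj
    refine Or.inr (Or.inl ⟨j, y * y' - y' * y, ?_, sub_mem (mul_mem h2 h2') (mul_mem h2' h2), fun F s => ?_⟩)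
    · intro x hx
      rcases List.mem_append.1 hx with hx | hx
      · exact h1 x hx
      · exact h1' x hx
    · have hd : ¬ (Lr.bl j 0 ∈ l ∧ Lr.bl j 0 ∈ l') := fun h =>
        List.disjoint_of_nodup_append hn h.1 h.2
      simp only [LinearMap.sub_apply, Module.End.mul_apply, Pi.sub_apply, h3, h3', List.mem_append]
      by_cases ha : Lr.bl j 0 ∈ l <;> by_cases hb : Lr.bl j 0 ∈ l'
      · exact absurd ⟨ha, hb⟩ hd
      · simp only [ha, hb, if_true, if_false, or_false, one_smul, sub_mul, smul_sub, mul_assoc,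
          mul_smul_comm]
      · simp only [ha, hb, if_true, if_false, or_true, one_smul, sub_mul, smul_sub, mul_assoc,
          mul_smul_comm]
      · simp only [ha, hb, if_false, or_false, one_smul, sub_mul, mul_assoc]
  · left
    have hc : y * y' = y' * y := adj_comm (by simpa using hj) h2 h2'
    ext1 F; ext1 s
    simp only [LinearMap.sub_apply, Module.End.mul_apply, Pi.sub_apply, h3, h3', LinearMap.zero_apply,
      Pi.zero_apply, mul_smul_comm, ← mul_assoc, hc]
    rw [smul_comm, sub_self]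

lemma Form.mp {th ze : ℕ → K} {l l' : List Lr} (hn : (l ++ l').Nodup) {T T' : Module.End K (St → B K)}
    {c i k : ℕ} {κ : K} {y : B K} {j' : ℕ} {y' : B K} (h0 : 1 ≤ k ∧ ∃ i', Lr.mk c i' ∈ l)
    (h1 : ∀ c' i', Lr.mk c' i' ∈ l → c' = c) (h2 : y ∈ adj K {j | Lr.bl j 0 ∈ l})
    (h3 : ∀ F s, T F s = if s.2 c = i then (κ : K) • (y * F (s.1 + k, Function.update s.2 c (i + k))) else 0)
    (h1' : ∀ x ∈ l', ∃ i, x = Lr.bl j' i) (h2' : y' ∈ adj K {j'})
    (h3' : ∀ F s, T' F s = (if Lr.bl j' 0 ∈ l' then th j' * s.1 + ze j' else 1) • (y' * F s)) :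
    Form th ze (l ++ l') (T * T' - T' * T) := by
  have hmk : ∀ c' i', Lr.mk c' i' ∈ l ++ l' → c' = c := by
    intro c' i' hx
    rcases List.mem_append.1 hx with hx | hx
    · exact h1 c' i' hx
    · obtain ⟨_, h⟩ := h1' _ hx; exact absurd h (by simp)
  have hm1 : adj K {j | Lr.bl j 0 ∈ l} ≤ adj K {j | Lr.bl j 0 ∈ l ++ l'} :=
    adj_mono (fun j hj => List.mem_append_left _ hj)
  by_cases hs : Lr.bl j' 0 ∈ l'
  · have hj : j' ∉ {j | Lr.bl j 0 ∈ l} := fun h => List.disjoint_of_nodup_append hn h hs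
    have hc : y * y' = y' * y := adj_comm (by simpa using hj) h2 h2'
    refine Or.inr (Or.inr ⟨c, i, k, κ * (th j' * k), y * y', ⟨h0.1, h0.2.imp fun _ h => List.mem_append_left _ h⟩, hmk,
      mul_mem (hm1 h2) (adj_mono (by simpa using Or.inr hs) h2'), fun F s => ?_⟩)
    simp only [LinearMap.sub_apply, Module.End.mul_apply, Pi.sub_apply, h3, h3', hs, if_true]
    split_ifs with hi
    · simp only [mul_smul_comm, ← mul_assoc, hc]
      rw [smul_smul, smul_smul, ← sub_smul]
      congr 1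
      push_cast
      ring
    · simp
  · by_cases hj : Lr.bl j' 0 ∈ l
    · refine Or.inr (Or.inr ⟨c, i, k, κ, y * y' - y' * y, ⟨h0.1, h0.2.imp fun _ h => List.mem_append_left _ h⟩, hmk,
        sub_mem (mul_mem (hm1 h2) (adj_mono (by simpa using Or.inl hj) h2'))
          (mul_mem (adj_mono (by simpa using Or.inl hj) h2') (hm1 h2)), fun F s => ?_⟩)
      simp only [LinearMap.sub_apply, Module.End.mul_apply, Pi.sub_apply, h3, h3', hs, if_false, one_smul]
      split_ifs with hi
      · simp only [sub_mul, smul_sub, mul_smul_comm, ← mul_assoc]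
      · simp
    · have hc : y * y' = y' * y := adj_comm (by simpa using hj) h2 h2'
      left
      ext1 F; ext1 s
      simp only [LinearMap.sub_apply, Module.End.mul_apply, Pi.sub_apply, h3, h3', hs, if_false, one_smul,
        LinearMap.zero_apply, Pi.zero_apply]
      split_ifs with hi
      · simp only [mul_smul_comm, ← mul_assoc, hc, sub_self]
      · simp

lemma Form.mm {th ze : ℕ → K} {l l' : List Lr} (hn : (l ++ l').Nodup) {T T' : Module.End K (St → B K)}
    {c i k : ℕ} {κ : K} {y : B K} (h0 : 1 ≤ k ∧ ∃ i', Lr.mk c i' ∈ l)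
    (h1 : ∀ c' i', Lr.mk c' i' ∈ l → c' = c) (h2 : y ∈ adj K {j | Lr.bl j 0 ∈ l})
    (h3 : ∀ F s, T F s = if s.2 c = i then (κ : K) • (y * F (s.1 + k, Function.update s.2 c (i + k))) else 0)
    {c₂ i₂ k₂ : ℕ} {κ₂ : K} {y₂ : B K} (h0' : 1 ≤ k₂ ∧ ∃ i', Lr.mk c₂ i' ∈ l')
    (h1' : ∀ c' i', Lr.mk c' i' ∈ l' → c' = c₂) (h2' : y₂ ∈ adj K {j | Lr.bl j 0 ∈ l'})
    (h3' : ∀ F s, T' F s = if s.2 c₂ = i₂ then (κ₂ : K) • (y₂ * F (s.1 + k₂, Function.update s.2 c₂ (i₂ + k₂))) else 0) :
    Form th ze (l ++ l') (T * T' - T' * T) := by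
  have hdis : Disjoint {j | Lr.bl j 0 ∈ l} {j | Lr.bl j 0 ∈ l'} :=
    Set.disjoint_left.2 (fun j hj hj' => List.disjoint_of_nodup_append hn hj hj')
  have hc : y * y₂ = y₂ * y := adj_comm hdis h2 h2'
  have hm1 : adj K {j | Lr.bl j 0 ∈ l} ≤ adj K {j | Lr.bl j 0 ∈ l ++ l'} :=
    adj_mono (fun j hj => List.mem_append_left _ hj)
  have hm2 : adj K {j | Lr.bl j 0 ∈ l'} ≤ adj K {j | Lr.bl j 0 ∈ l ++ l'} :=
    adj_mono (fun j hj => List.mem_append_right _ hj)
  by_cases hcc : c = c₂
  · subst hcc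
    have hmk : ∀ c' i', Lr.mk c' i' ∈ l ++ l' → c' = c := by
      intro c' i' hx
      rcases List.mem_append.1 hx with hx | hx
      · exact h1 c' i' hx
      · exact h1' c' i' hx
    have h00 := h0.1
    have h00' := h0'.1
    have hex : ∃ i', Lr.mk c i' ∈ l ++ l' := h0.2.imp fun _ h => List.mem_append_left _ h
    by_cases ha : i + k = i₂
    · have hb : ¬ i₂ + k₂ = i := by omega
      refine Or.inr (Or.inr ⟨c, i, k + k₂, κ * κ₂, y * y₂, ⟨by omega, hex⟩, hmk, mul_mem (hm1 h2) (hm2 h2'),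
        fun F s => ?_⟩)
      simp only [LinearMap.sub_apply, Module.End.mul_apply, Pi.sub_apply, h3, h3',
        Function.update_self, ha, hb, if_true, if_false, mul_zero, smul_zero, ite_self, sub_zero,
        Function.update_idem]
      split_ifs with hi
      · rw [mul_smul_comm, smul_smul, ← mul_assoc, ← ha, add_assoc, add_assoc]
      · rfl
    · by_cases hb : i₂ + k₂ = i
      · refine Or.inr (Or.inr ⟨c, i₂, k₂ + k, -(κ₂ * κ), y₂ * y, ⟨by omega, hex⟩, hmk, mul_mem (hm2 h2') (hm1 h2),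
          fun F s => ?_⟩)
        simp only [LinearMap.sub_apply, Module.End.mul_apply, Pi.sub_apply, h3, h3',
          Function.update_self, ha, hb, if_true, if_false, mul_zero, smul_zero, ite_self, zero_sub,
          Function.update_idem]
        split_ifs with hi
        · rw [mul_smul_comm, smul_smul, ← mul_assoc, ← hb, add_assoc, add_assoc, neg_smul]
        · simp
      · left
        ext1 F; ext1 s
        simp only [LinearMap.sub_apply, Module.End.mul_apply, Pi.sub_apply, h3, h3',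
          Function.update_self, ha, hb, if_false, mul_zero, smul_zero, ite_self, sub_zero,
          LinearMap.zero_apply, Pi.zero_apply]
  · left
    ext1 F; ext1 s
    have e1 : ∀ v, (Function.update s.2 c v) c₂ = s.2 c₂ := fun v =>
      Function.update_of_ne (fun h => hcc h.symm) _ _
    have e2 : ∀ v, (Function.update s.2 c₂ v) c = s.2 c := fun v =>
      Function.update_of_ne hcc _ _
    simp only [LinearMap.sub_apply, Module.End.mul_apply, Pi.sub_apply, h3, h3', e1, e2,
      LinearMap.zero_apply, Pi.zero_apply]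
    by_cases ha : s.2 c = i <;> by_cases hb : s.2 c₂ = i₂ <;> simp only [ha, hb, if_true, if_false, mul_zero, smul_zero, sub_self]
    rw [mul_smul_comm, mul_smul_comm, ← mul_assoc, ← mul_assoc, hc, smul_comm, Function.update_comm hcc,
      add_right_comm, sub_self]

/-- KEY -/
theorem key (th ze : ℕ → K) (R : BK.LT Lr) (hn : R.leaves.Nodup) : Form th ze R.leaves (ev (op th ze) R) := by
  induction R with
  | leaf x =>
    cases x with
    | mk c i =>
      refine Or.inr (Or.inr ⟨c, i, 1, 1, 1, ⟨le_rfl, i, List.mem_singleton.2 rfl⟩, ?_, one_mem _, fun F s => ?_⟩)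
      · intro c' i' h; simp [BK.LT.leaves] at h; exact h.1
      · simp [ev, op]
    | bl j i =>
      refine Or.inr (Or.inl ⟨j, bb j i, ?_, bb_mem (Set.mem_singleton j) i, fun F s => ?_⟩)
      · intro x hx; simp [BK.LT.leaves] at hx; exact ⟨i, hx⟩
      · have e : (Lr.bl j 0 ∈ (BK.LT.leaf (Lr.bl j i)).leaves) ↔ i = 0 := by
          simp only [BK.LT.leaves, List.mem_singleton, Lr.bl.injEq, true_and]
          exact eq_comm
        simp only [e]
        rfl
  | node a b iha ihb =>
    have hn' : (a.leaves ++ b.leaves).Nodup := hn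
    have ha := iha hn'.of_append_left
    have hb := ihb hn'.of_append_right
    have hn2 : (b.leaves ++ a.leaves).Nodup := (List.perm_append_comm.nodup_iff).1 hn'
    show Form th ze (a.leaves ++ b.leaves) (ev (op th ze) a * ev (op th ze) b - ev (op th ze) b * ev (op th ze) a)
    rcases ha with ha | ⟨j, y, h1, h2, h3⟩ | ⟨c, i, k, κ, y, h0, h1, h2, h3⟩
    · left; rw [ha]; simp
    · rcases hb with hb | ⟨j', y', h1', h2', h3'⟩ | ⟨c', i', k', κ', y', h0', h1', h2', h3'⟩
      · left; rw [hb]; simp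
      · exact Form.pp hn' h1 h2 h3 h1' h2' h3'
      · have := (Form.mp hn2 h0' h1' h2' h3' h1 h2 h3).neg
        rw [neg_sub] at this
        exact this.perm List.perm_append_comm
    · rcases hb with hb | ⟨j', y', h1', h2', h3'⟩ | ⟨c', i', k', κ', y', h0', h1', h2', h3'⟩
      · left; rw [hb]; simp
      · exact Form.mp hn' h0 h1 h2 h3 h1' h2' h3'
      · exact Form.mm hn' h0 h1 h2 h3 h0' h1' h2' h3'

end Pool.Agent.BC78.BH31
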