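import Pool.Agent.BC78.BH31.Key
import Pool.Agent.BC78.BZ.Sig

/-! Level test: kill part. -/

namespace Pool.Agent.BC78.BH31

open Pool.Agent.H25 Pool.Agent.BC78.BK Pool.Agent.BC78.BZ

variable {K : Type*} [Field K]

/-- scalar of a letter -/
def sc (th ze : ℕ → K) : Lr → St → K
  | Lr.mk c i, s => if s.2 c = i then 1 else 0
  | Lr.bl j i, s => if i = 0 then th j * s.1 + ze j else 1

/-- shift of the state -/
def sh : Lr → St → St
  | Lr.mk c i, s => (s.1 + 1, Function.update s.2 c (i + 1))
  | Lr.bl _ _, s => s

/-- block part of a letter -/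
noncomputable def lb (K : Type*) [Field K] : Lr → B K
  | Lr.mk _ _ => 1
  | Lr.bl j i => bb j i

lemma op_apply (th ze : ℕ → K) (x : Lr) (F : St → B K) (s : St) :
    op th ze x F s = sc th ze x s • (lb K x * F (sh x s)) := by
  cases x with
  | mk c i =>
    simp only [op, sc, sh, lb, LinearMap.coe_mk, AddHom.coe_mk, one_mul]
    split_ifs <;> simp
  | bl j i => rfl

/-- weight of a word -/
def wt (th ze : ℕ → K) : List Lr → St → K
  | [], _ => 1
  | x :: w, s => sc th ze x s * wt th ze w (sh x s)

/-- final state -/
def shw : List Lr → St → St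
  | [], s => s
  | x :: w, s => shw w (sh x s)

lemma wt_append (th ze : ℕ → K) (u v : List Lr) (s : St) :
    wt th ze (u ++ v) s = wt th ze u s * wt th ze v (shw u s) := by
  induction u generalizing s with
  | nil => simp [wt, shw]
  | cons x u ih => simp only [List.cons_append, wt, shw, ih, mul_assoc]

lemma shw_append (u v : List Lr) (s : St) : shw (u ++ v) s = shw v (shw u s) := by
  induction u generalizing s with
  | nil => rfl
  | cons x u ih => simp only [List.cons_append, shw, ih]

lemma opw (th ze : ℕ → K) (w : List Lr) (F : St → B K) (s : St) :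
    (w.map (op th ze)).prod F s = wt th ze w s • ((w.map (lb K)).prod * F (shw w s)) := by
  induction w generalizing s with
  | nil => simp [wt, shw]
  | cons x w ih =>
    rw [List.map_cons, List.prod_cons, Module.End.mul_apply, op_apply, ih, wt, shw, List.map_cons,
      List.prod_cons, mul_smul_comm, smul_smul, mul_assoc]

/-- index in block `j` -/
def ix (j : ℕ) : Lr → Option ℕ
  | Lr.mk _ _ => none
  | Lr.bl k i => if k = j then some i else none

/-- the functional on the block algebra -/
noncomputable def Psi (J : ℕ) (ψ : ℕ → List ℕ → K) : B K →ₗ[K] K where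
  toFun x := Finsupp.linearCombination K
    (fun m : ℕ → FreeMonoid ℕ => ∏ j ∈ Finset.range J, ψ j (FreeMonoid.toList (m j))) x.coeff
  map_add' x y := by rw [MonoidAlgebra.coeff_add, map_add]
  map_smul' a x := by rw [MonoidAlgebra.coeff_smul, map_smul]; rfl

/-- the monomial of a word -/
noncomputable def mon (w : List Lr) : ℕ → FreeMonoid ℕ := fun j => FreeMonoid.ofList (w.filterMap (ix j))

lemma lbw (w : List Lr) : (w.map (lb K)).prod = MonoidAlgebra.of K (ℕ → FreeMonoid ℕ) (mon w) := by
  induction w with
  | nil => 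
    have : mon [] = 1 := by funext j; simp [mon]
    rw [this, map_one]; rfl
  | cons x w ih =>
    rw [List.map_cons, List.prod_cons, ih]
    cases x with
    | mk c i =>
      have : mon (Lr.mk c i :: w) = mon w := by
        funext j; simp only [mon]; rw [List.filterMap_cons_none rfl]
      rw [this, lb, one_mul]
    | bl j i =>
      have : mon (Lr.bl j i :: w) = Pi.mulSingle j (FreeMonoid.of i) * mon w := by
        funext k
        by_cases h : j = k
        · subst h; simp [mon, ix]
        · simp [mon, ix, h]
      rw [this, lb, bb, map_mul]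

lemma Psi_of (J : ℕ) (ψ : ℕ → List ℕ → K) (m : ℕ → FreeMonoid ℕ) :
    Psi J ψ (MonoidAlgebra.of K (ℕ → FreeMonoid ℕ) m) = ∏ j ∈ Finset.range J, ψ j (FreeMonoid.toList (m j)) := by
  show Finsupp.linearCombination K _ ((MonoidAlgebra.of K (ℕ → FreeMonoid ℕ) m).coeff) = _
  rw [MonoidAlgebra.of_apply, MonoidAlgebra.coeff_single, Finsupp.linearCombination_single, one_smul]

/-- start -/
def s0 : St := (0, fun _ => 0)

/-- the functional on operators -/
noncomputable def Lam (J : ℕ) (ψ : ℕ → List ℕ → K) : Module.End K (St → B K) →ₗ[K] K where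
  toFun T := Psi J ψ (T (fun _ => 1) s0)
  map_add' := by intro a b; simp
  map_smul' := by intro a b; simp

open Classical in
/-- the test functional -/
noncomputable def phi (th ze : ℕ → K) (J : ℕ) (ψ : ℕ → List ℕ → K) (E : List Lr) (w : List Lr) : K :=
  if w.Perm E then Lam J ψ ((w.map (op th ze)).prod) else 0

lemma phi_eq (th ze : ℕ → K) (J : ℕ) (ψ : ℕ → List ℕ → K) (E : List Lr) {w : List Lr} (h : w.Perm E) :
    phi th ze J ψ E w = wt th ze w s0 * ∏ j ∈ Finset.range J, ψ j (w.filterMap (ix j)) := by
  rw [phi, if_pos h]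
  show Psi J ψ ((w.map (op th ze)).prod (fun _ => 1) s0) = _
  rw [opw, mul_one, map_smul, lbw, Psi_of, smul_eq_mul]
  rfl

end Pool.Agent.BC78.BH31
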