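import Pool.Agent.BC78.BH31.Kill

/-! Level test: kill part 2. -/

namespace Pool.Agent.BC78.BH31

open Pool.Agent.H25 Pool.Agent.BC78.BK Pool.Agent.BC78.BZ

variable {K : Type*} [Field K]

/-- is a mark -/
def isM : Lr → Bool
  | Lr.mk _ _ => true
  | Lr.bl _ _ => false

/-- is a mark of class `c` -/
def isC (c : ℕ) : Lr → Bool
  | Lr.mk c' _ => c' == c
  | Lr.bl _ _ => false

/-- index -/
def gi : Lr → ℕ
  | Lr.mk _ i => i
  | Lr.bl _ i => i

lemma wt_blk (th ze : ℕ → K) (j : ℕ) (w : List Lr) (hw : ∀ x ∈ w, ∃ i, x = Lr.bl j i) (s : St) :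
    wt th ze w s = (th j * s.1 + ze j) ^ (w.count (Lr.bl j 0)) ∧ shw w s = s := by
  induction w generalizing s with
  | nil => simp [wt, shw]
  | cons x w ih =>
    obtain ⟨i, rfl⟩ := hw x (List.mem_cons_self ..)
    have ih' := ih (fun x hx => hw x (List.mem_cons_of_mem _ hx)) s
    refine ⟨?_, ih'.2⟩
    show sc th ze (Lr.bl j i) s * wt th ze w s = _
    rw [ih'.1, List.count_cons]
    by_cases hi : i = 0
    · subst hi; simp [sc, pow_succ, mul_comm]
    · simp [sc, hi]

lemma fm_none {j : ℕ} {u : List Lr} (h : ∀ i, Lr.bl j i ∉ u) : u.filterMap (ix j) = [] := by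
  rw [List.filterMap_eq_nil_iff]
  intro x hx
  cases x with
  | mk c i => rfl
  | bl k i =>
    by_cases hk : k = j
    · subst hk; exact absurd hx (h i)
    · simp [ix, hk]

lemma fm_blk {j : ℕ} {w : List Lr} (h : ∀ x ∈ w, ∃ i, x = Lr.bl j i) : w.filterMap (ix j) = w.map gi := by
  induction w with
  | nil => rfl
  | cons x w ih =>
    obtain ⟨i, rfl⟩ := h x (List.mem_cons_self ..)
    rw [List.filterMap_cons_some (b := i) (by simp [ix]), ih (fun x hx => h x (List.mem_cons_of_mem _ hx))]
    rfl

lemma fm_blk' {j k : ℕ} (hjk : k ≠ j) {w : List Lr} (h : ∀ x ∈ w, ∃ i, x = Lr.bl j i) : w.filterMap (ix k) = [] := by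
  apply fm_none
  intro i hi
  obtain ⟨i', h'⟩ := h _ hi
  exact hjk (by injection h')

/-- the hypotheses on the list of letters -/
structure HE (K : Type*) [Field K] (r : ℕ) (Bo : Option BT) (p : ℕ) (th ze : ℕ → K) (J : ℕ) (sz : ℕ → ℕ)
    (ψ : ℕ → List ℕ → K) (E : List Lr) : Prop where
  nd : E.Nodup
  bl : ∀ j i, Lr.bl j i ∈ E ↔ j < J ∧ i < sz j
  szr : ∀ j, j < J → 1 ≤ sz j ∧ sz j ≤ r
  cl : ∀ c, E.countP (isC c) < p
  ps : ∀ j, j < J → sz j = r → ∀ S : BK.LT ℕ, big K r Bo S.shape → S.shape.lv = r → S.val (ψ j) = 0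

section
variable {r : ℕ} {Bo : Option BT} {p : ℕ} {th ze : ℕ → K} {J : ℕ} {sz : ℕ → ℕ} {ψ : ℕ → List ℕ → K} {E : List Lr}

lemma val_phi (S : BK.LT Lr) {u v : List Lr} (hp : (u ++ S.leaves ++ v).Perm E) :
    S.val (fun w => phi th ze J ψ E (u ++ w ++ v)) =
      Lam J ψ ((u.map (op th ze)).prod * ev (op th ze) S * (v.map (op th ze)).prod) := by
  have h1 := val_ev (op th ze) S (Lam J ψ ∘ₗ LinearMap.mulRight K ((v.map (op th ze)).prod) ∘ₗ
    LinearMap.mulLeft K ((u.map (op th ze)).prod))
  have h2 : (Lam J ψ ∘ₗ LinearMap.mulRight K ((v.map (op th ze)).prod) ∘ₗ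
    LinearMap.mulLeft K ((u.map (op th ze)).prod)) (ev (op th ze) S) =
      Lam J ψ ((u.map (op th ze)).prod * ev (op th ze) S * (v.map (op th ze)).prod) := rfl
  rw [← h2, ← h1]
  refine val_congr S (fun w hw => ?_)
  have hpe : (u ++ w ++ v).Perm E := ((hw.append_left u).append_right v).trans hp
  rw [phi, if_pos hpe, List.map_append, List.map_append, List.prod_append, List.prod_append]
  rfl

lemma val_np (S : BK.LT Lr) {u v : List Lr} (hp : ¬ (u ++ S.leaves ++ v).Perm E) :
    S.val (fun w => phi th ze J ψ E (u ++ w ++ v)) = 0 := by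
  rw [← val_zero (K := K) S]
  refine val_congr S (fun w hw => ?_)
  rw [phi, if_neg]
  intro h
  exact hp ((((hw.append_left u).append_right v).symm).trans h)

lemma leaves_ne (S : BK.LT Lr) : S.leaves ≠ [] := by
  induction S with
  | leaf x => simp [BK.LT.leaves]
  | node a b iha ihb => simp [BK.LT.leaves, iha]

/-- complete blocks -/
lemma full (h : HE K r Bo p th ze J sz ψ E) (S : BK.LT Lr) (hn : S.leaves.Nodup) (hsub : ∀ x ∈ S.leaves, x ∈ E)
    {j : ℕ} (hj : ∀ x ∈ S.leaves, ∃ i, x = Lr.bl j i) :
    j < J ∧ S.shape.lv ≤ sz j ∧ (sz j ≤ S.shape.lv → (S.leaves.map gi).Perm (List.range (sz j)) ∧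
      ∀ i, i < sz j → Lr.bl j i ∈ S.leaves) := by
  have hgi : ∀ x ∈ S.leaves, x = Lr.bl j (gi x) := by
    intro x hx; obtain ⟨i, rfl⟩ := hj x hx; rfl
  have hlt : ∀ x ∈ S.leaves, j < J ∧ gi x < sz j := by
    intro x hx
    have := hsub x hx
    rw [hgi x hx] at this
    exact (h.bl _ _).1 this
  obtain ⟨x0, hx0⟩ := List.exists_mem_of_ne_nil _ (leaves_ne S)
  have hnd : (S.leaves.map gi).Nodup := by
    rw [List.nodup_map_iff_inj_on hn]
    intro x hx y hy hxy
    rw [hgi x hx, hgi y hy, hxy]
  have hss : (S.leaves.map gi) ⊆ List.range (sz j) := by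
    intro i hi
    obtain ⟨x, hx, rfl⟩ := List.mem_map.1 hi
    exact List.mem_range.2 (hlt x hx).2
  have hlen : (S.leaves.map gi).length ≤ (List.range (sz j)).length := (hnd.subperm hss).length_le
  rw [List.length_map, length_leaves, List.length_range] at hlen
  refine ⟨(hlt x0 hx0).1, hlen, fun hle => ?_⟩
  have hpm : (S.leaves.map gi).Perm (List.range (sz j)) := by
    apply (hnd.subperm hss).perm_of_length_le
    rw [List.length_map, length_leaves, List.length_range]; exact hle
  refine ⟨hpm, fun i hi => ?_⟩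
  have : i ∈ S.leaves.map gi := hpm.mem_iff.2 (List.mem_range.2 hi)
  obtain ⟨x, hx, rfl⟩ := List.mem_map.1 this
  rw [← hgi x hx]; exact hx

/-- pure big clades are killed -/
theorem kill_pure (h : HE K r Bo p th ze J sz ψ E) (S : BK.LT Lr) (hpu : ∀ x ∈ S.leaves, isM x = false)
    (hb : big K r Bo S.shape) (u v : List Lr) : S.val (fun w => phi th ze J ψ E (u ++ w ++ v)) = 0 := by
  by_cases hp : (u ++ S.leaves ++ v).Perm E
  · have hnd : (u ++ S.leaves ++ v).Nodup := hp.nodup_iff.2 h.nd
    have hn : S.leaves.Nodup := hnd.of_append_left.of_append_right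
    have hsub : ∀ x ∈ S.leaves, x ∈ E := fun x hx =>
      hp.mem_iff.1 (List.mem_append_left _ (List.mem_append_right _ hx))
    rcases key th ze S hn with h0 | ⟨j, y, h1, h2, h3⟩ | ⟨c, i, k, κ, y, ⟨_, i', hi'⟩, _⟩
    · rw [val_phi S hp, h0]; simp
    · obtain ⟨hjJ, hle, hfull⟩ := full h S hn hsub h1
      have hszr := (h.szr j hjJ).2
      have hr : S.shape.lv = r := by
        rcases hb with hb | hb
        · omega
        · exact hb.1
      have hszj : sz j = r := by omega
      obtain ⟨hpm, hall⟩ := hfull (by omega)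
      have hu : ∀ i, Lr.bl j i ∉ u := by
        intro i hi
        have : i < sz j := ((h.bl j i).1 (hp.mem_iff.1 (List.mem_append_left _ (List.mem_append_left _ hi)))).2
        exact List.disjoint_of_nodup_append hnd.of_append_left hi (hall i this)
      have hv : ∀ i, Lr.bl j i ∉ v := by
        intro i hi
        have : i < sz j := ((h.bl j i).1 (hp.mem_iff.1 (List.mem_append_right _ hi))).2
        exact List.disjoint_of_nodup_append hnd (List.mem_append_right _ (hall i this)) hi
      have hform : ∀ w, w.Perm S.leaves → phi th ze J ψ E (u ++ w ++ v) =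
          (wt th ze (u ++ S.leaves ++ v) s0 * ∏ k ∈ (Finset.range J).erase j, ψ k ((u ++ v).filterMap (ix k))) *
            ψ j (w.map gi) := by
        intro w hw
        have hwj : ∀ x ∈ w, ∃ i, x = Lr.bl j i := fun x hx => h1 x (hw.mem_iff.1 hx)
        rw [phi_eq th ze J ψ E (((hw.append_left u).append_right v).trans hp)]
        have e1 : wt th ze (u ++ w ++ v) s0 = wt th ze (u ++ S.leaves ++ v) s0 := by
          rw [wt_append, wt_append, wt_append, wt_append, shw_append, shw_append,
            (wt_blk th ze j w hwj _).1, (wt_blk th ze j w hwj _).2, (wt_blk th ze j _ h1 _).1,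
            (wt_blk th ze j _ h1 _).2, hw.count_eq]
        rw [e1, ← Finset.mul_prod_erase _ _ (Finset.mem_range.2 hjJ)]
        have e2 : (u ++ w ++ v).filterMap (ix j) = w.map gi := by
          rw [List.filterMap_append, List.filterMap_append, fm_none hu, fm_none hv, fm_blk hwj]; simp
        rw [e2]
        have e3 : ∀ k ∈ (Finset.range J).erase j, ψ k ((u ++ w ++ v).filterMap (ix k)) =
            ψ k ((u ++ v).filterMap (ix k)) := by
          intro k hk
          rw [List.filterMap_append, List.filterMap_append, fm_blk' (Finset.ne_of_mem_erase hk) hwj,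
            List.filterMap_append]; simp
        rw [Finset.prod_congr rfl e3]
        ring
      rw [val_congr S hform, val_mul_left, ← val_map gi S (ψ j), h.ps j hjJ hszj, mul_zero]
      · rw [shape_map]; exact hb
      · rw [shape_map]; exact hr
    · have := hpu _ hi'
      simp [isM] at this
  · exact val_np S hp

open Classical in
lemma cb_le (R : BK.LT Lr) (hR : ∀ S, BK.LT.Cl S R → (∀ x ∈ S.leaves, isM x = false) → ¬ big K r Bo S.shape) :
    cb K r Bo R.shape ≤ R.leaves.countP isM := by
  induction R with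
  | leaf x =>
    show (if big K r Bo BT.leaf then 1 else 0) ≤ _
    cases x with
    | mk c i => simp only [BK.LT.leaves, List.countP_cons, List.countP_nil, isM]; split_ifs <;> simp
    | bl j i =>
      rw [if_neg]; exact Nat.zero_le _
      exact hR _ (BK.LT.Cl.refl _) (by simp [BK.LT.leaves, isM])
  | node a b iha ihb =>
    have ha := iha (fun S hS => hR S (BK.LT.Cl.left b hS))
    have hb := ihb (fun S hS => hR S (BK.LT.Cl.right a hS))
    show (if cb K r Bo a.shape + cb K r Bo b.shape = 0 then (if big K r Bo (BT.node a.shape b.shape) then 1 else 0)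
      else cb K r Bo a.shape + cb K r Bo b.shape) ≤ (a.leaves ++ b.leaves).countP isM
    rw [List.countP_append]
    split_ifs with h1 h2
    · by_contra hlt
      have hz : (a.leaves ++ b.leaves).countP isM = 0 := by rw [List.countP_append]; omega
      rw [List.countP_eq_zero] at hz
      exact hR _ (BK.LT.Cl.refl _) (fun x hx => by simpa using hz x hx) h2
    · exact Nat.zero_le _
    · omega

/-- big trees are killed -/
theorem kill (h : HE K r Bo p th ze J sz ψ E) (hp1 : 1 ≤ p) (R : BK.LT Lr) (hc : p ≤ cb K r Bo R.shape)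
    (u v : List Lr) : R.val (fun w => phi th ze J ψ E (u ++ w ++ v)) = 0 := by
  by_cases hex : ∀ S, BK.LT.Cl S R → (∀ x ∈ S.leaves, isM x = false) → ¬ big K r Bo S.shape
  · by_cases hp : (u ++ R.leaves ++ v).Perm E
    · have hnd : (u ++ R.leaves ++ v).Nodup := hp.nodup_iff.2 h.nd
      have hn : R.leaves.Nodup := hnd.of_append_left.of_append_right
      have hcm := cb_le R hex
      rcases key th ze R hn with h0 | ⟨j, y, h1, h2, h3⟩ | ⟨c, i, k, κ, y, _, h1, _, _⟩
      · rw [val_phi R hp, h0]; simp
      · exfalso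
        have : R.leaves.countP isM = 0 := by
          rw [List.countP_eq_zero]; intro x hx
          obtain ⟨i, rfl⟩ := h1 x hx; simp [isM]
        omega
      · exfalso
        have e1 : R.leaves.countP isM = R.leaves.countP (isC c) := by
          refine List.countP_congr (fun x hx => ?_)
          cases x with
          | mk c' i' => simp [isM, isC, h1 c' i' hx]
          | bl j i => simp [isM, isC]
        have e2 : R.leaves.countP (isC c) ≤ E.countP (isC c) := by
          rw [← hp.countP_eq, List.countP_append, List.countP_append]; omega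
        have := h.cl c
        omega
    · exact val_np R hp
  · push Not at hex
    obtain ⟨S, hS, hpu, hb⟩ := hex
    refine clade_zero hS (fun u' v' => ?_)
    have := kill_pure h S hpu hb (u ++ u') (v' ++ v)
    simpa only [List.append_assoc] using this

end

end Pool.Agent.BC78.BH31
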