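import Pool.Agent.BC78.BH31.Build2

/-! Level test: final statement (row Z3). -/

namespace Pool.Agent.BC78.BH31

open Pool.Agent.H25 Pool.Agent.BC78.BK Pool.Agent.BC78.BZ

variable {K : Type*} [Field K]

section
variable {r : ℕ} {Bo : Option BT}

lemma bks_cb (t : BT) : ∀ σ ∈ bks K r Bo t, cb K r Bo σ = 0 := by
  induction t with
  | leaf => simp [bks]
  | node a b iha ihb =>
    intro σ hσ
    simp only [bks] at hσ
    split_ifs at hσ with h1 h2
    · rcases List.mem_append.1 hσ with h | h
      · exact iha σ h
      · rw [List.mem_singleton.1 h]; exact h1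
    · rcases List.mem_append.1 hσ with h | h
      · exact ihb σ h
      · rw [List.mem_singleton.1 h]; exact h2
    · rcases List.mem_append.1 hσ with h | h
      · exact iha σ h
      · exact ihb σ h

lemma absh_cb (gs : List BT) : ∀ σ ∈ absh K r Bo gs, cb K r Bo σ = 0 := by
  induction gs with
  | nil => simp [absh]
  | cons g gs ih =>
    intro σ hσ
    simp only [absh] at hσ
    rcases List.mem_append.1 hσ with h | h
    · split_ifs at h with h1
      · rw [List.mem_singleton.1 h]; exact h1
      · exact bks_cb g σ h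
    · exact ih σ h

open Classical in
/-- generic `r`-blocks in a list -/
noncomputable def gq (K : Type*) [Field K] (r p : ℕ) (x : BT × K) : Bool := decide (x.1.lv = r ∧ ((p - 1 : ℕ) : K) + x.2 ≠ 0)

lemma gq_count (p : ℕ) (M : ℕ) (gs : List BT) :
    (((absh K r Bo gs).zip (zs K r Bo p M gs)).countP (gq K r p) ≤ cent K r Bo (p - 1 - M) gs) ∧
      (p - 1 < M → ((absh K r Bo gs).zip (zs K r Bo p M gs)).countP (gq K r p) = 0) := by
  induction gs generalizing M with
  | nil => simp [absh, zs]
  | cons g gs ih =>
    have hcent : cent K r Bo (p - 1 - M) (g :: gs) = (if p - 1 - M = 0 ∧ g.lv = r ∧ cb K r Bo g = 0 then 1 else 0) +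
      (if cb K r Bo g ≤ p - 1 - M then cent K r Bo (p - 1 - M - cb K r Bo g) gs else 0) := rfl
    by_cases hg : cb K r Bo g = 0
    · have ez : (absh K r Bo (g :: gs)).zip (zs K r Bo p M (g :: gs)) =
          (g, zv K r p (M = p - 1) g) :: (absh K r Bo gs).zip (zs K r Bo p M gs) := by
        simp only [absh, zs, hg, if_true, List.singleton_append, List.zip_cons_cons, add_zero]
      have ih' := ih M
      rw [ez, List.countP_cons, hcent, hg]
      by_cases hM : M = p - 1
      · have h0 : p - 1 - M = 0 := by omega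
        have h1 : (if gq K r p (g, zv K r p (M = p - 1) g) = true then 1 else 0) ≤
            (if g.lv = r then 1 else 0) := by
          by_cases h2 : g.lv = r
          · rw [if_pos h2]; split_ifs <;> omega
          · have : gq K r p (g, zv K r p (M = p - 1) g) = false := by simp [gq, h2]
            simp [this]
        refine ⟨?_, fun h => by omega⟩
        have h3 := ih'.1
        rw [h0] at h3 ⊢
        simp only [true_and, and_true, zero_le, if_true, Nat.sub_zero, le_refl]
        omega
      · have : gq K r p (g, zv K r p (M = p - 1) g) = false := by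
          by_cases h2 : g.lv = r <;> simp [gq, zv, h2, hM]
        simp only [this, Bool.false_eq_true, if_false, add_zero]
        refine ⟨?_, ih'.2⟩
        simp only [zero_le, if_true, Nat.sub_zero]
        have := ih'.1
        omega
    · have hz : ∀ l : List BT, (l.zip (l.map (zv K r p False))).countP (gq K r p) = 0 := by
        intro l
        induction l with
        | nil => rfl
        | cons σ l ih2 =>
          rw [List.map_cons, List.zip_cons_cons, List.countP_cons, ih2]
          have : gq K r p (σ, zv K r p False σ) = false := by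
            by_cases h2 : σ.lv = r <;> simp [gq, zv, h2]
          simp [this]
      have ez : ((absh K r Bo (g :: gs)).zip (zs K r Bo p M (g :: gs))).countP (gq K r p) =
          ((absh K r Bo gs).zip (zs K r Bo p (M + cb K r Bo g) gs)).countP (gq K r p) := by
        simp only [absh, zs, hg, if_false]
        rw [List.zip_append (by simp), List.countP_append, hz, zero_add]
      rw [ez, hcent]
      have ih' := ih (M + cb K r Bo g)
      refine ⟨?_, fun h => ih'.2 (by omega)⟩
      by_cases h3 : cb K r Bo g ≤ p - 1 - M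
      · have : p - 1 - M - cb K r Bo g = p - 1 - (M + cb K r Bo g) := by omega
        rw [if_pos h3, this]
        have := ih'.1
        omega
      · by_cases h4 : p - 1 < M + cb K r Bo g
        · rw [ih'.2 h4]; exact Nat.zero_le _
        · omega

lemma Gen_card (p : ℕ) (l : List BT) (z : List K) (hz : z.length = l.length) :
    (Gen r p (fun _ => (1 : K)) (fun k => z.getD k 1) l.length (fun k => (l.map BT.lv).getD k 0)).card =
      (l.zip z).countP (gq K r p) := by
  classical
  have e : l.zip z = (List.range l.length).map (fun k => (l.getD k BT.leaf, z.getD k 1)) := by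
    apply List.ext_getElem
    · simp [hz]
    · intro k h1 h2
      simp only [List.length_map, List.length_range] at h2
      simp only [List.getElem_zip, List.getElem_map, List.getElem_range]
      rw [List.getD_eq_getElem _ _ h2, List.getD_eq_getElem _ _ (by omega)]
  rw [e, List.countP_map, List.countP_eq_length_filter]
  rw [Gen]
  have e2 : ((Finset.range l.length).filter (fun j => (l.map BT.lv).getD j 0 = r ∧
      (1 : K) * ((p - 1 : ℕ) : K) + z.getD j 1 ≠ 0)).card = ((List.range l.length).filter
        (fun j => decide ((l.map BT.lv).getD j 0 = r ∧ (1 : K) * ((p - 1 : ℕ) : K) + z.getD j 1 ≠ 0))).length := rfl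
  rw [e2]
  congr 1
  refine List.filter_congr (fun k hk => ?_)
  rw [List.mem_range] at hk
  have e3 : (l.map BT.lv).getD k 0 = (l.getD k BT.leaf).lv := by
    rw [List.getD_eq_getElem _ _ (by simpa using hk), List.getElem_map, List.getD_eq_getElem l _ hk]
  simp only [Function.comp, gq, e3, one_mul]

theorem lt_core (hr : 1 ≤ r) (p : ℕ) (hp : 1 ≤ p) (gs : List BT) (hgs : ∀ g ∈ gs, cb K r Bo g < p)
    (hK : ∀ m : ℕ, 1 ≤ m → m ≤ max (need K r Bo gs + 1) p → ((m : ℕ) : K) ≠ 0) :
    ∃ φ : List Lr → K,
      (∀ R : BK.LT Lr, p ≤ cb K r Bo R.shape → ∀ u v : List Lr, R.val (fun w => φ (u ++ w ++ v)) = 0) ∧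
      (∃ Rs : List (BK.LT Lr), Rs.map BK.LT.shape = gs ∧ lvl Rs φ ≠ 0) ∧
      ∀ Rs : List (BK.LT Lr), lvl Rs φ ≠ 0 → need K r Bo (Rs.map BK.LT.shape) ≤ need K r Bo gs ∧
        (need K r Bo (Rs.map BK.LT.shape) = need K r Bo gs →
          cent K r Bo (p - 1) (Rs.map BK.LT.shape) ≤ cent K r Bo (p - 1) gs) := by
  classical
  set l := absh K r Bo gs with hl
  set z := zs K r Bo p 0 gs with hzdef
  have hzl : z.length = l.length := zs_length p 0 gs
  set sz : ℕ → ℕ := fun k => (l.map BT.lv).getD k 0 with hsz
  set ze : ℕ → K := fun k => z.getD k 1 with hze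
  set ψ : ℕ → List ℕ → K := fun k => psf K r Bo (l.getD k BT.leaf) with hψ
  set E : List Lr := EM K r Bo 0 gs ++ Eb 0 l with hE
  have hszj : ∀ j (hj : j < l.length), sz j = l[j].lv := by
    intro j hj
    simp only [hsz]
    rw [List.getD_eq_getElem _ _ (by simpa using hj), List.getElem_map]
  have hnb : ∀ j (hj : j < l.length), ¬ big K r Bo l[j] := by
    intro j hj hb
    have h1 := (cb_pos_iff' hr _).2 hb
    have h2 := absh_cb gs l[j] (List.getElem_mem hj)
    omega
  have hHE : HE K r Bo p (fun _ => (1 : K)) ze l.length sz ψ E := by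
    refine ⟨?_, ?_, ?_, ?_, ?_⟩
    · rw [hE, List.nodup_append]
      refine ⟨EM_nodup _ _, Eb_nodup _ _, ?_⟩
      intro x hx y hy hxy
      subst hxy
      obtain ⟨c, i, rfl, _⟩ := mem_EM _ _ _ hx
      obtain ⟨k, i', h, _⟩ := (mem_Eb _ _ _).1 hy
      cases h
    · intro j i
      rw [hE, List.mem_append]
      constructor
      · rintro (h | h)
        · obtain ⟨c, i, h', _⟩ := mem_EM _ _ _ h
          cases h'
        · obtain ⟨k, i', h', _, h3⟩ := (mem_Eb _ _ _).1 h
          injection h' with h1 h2
          subst h1; subst h2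
          rw [Nat.sub_zero] at h3
          refine ⟨?_, h3⟩
          by_contra hj
          rw [List.getD_eq_default _ _ (by simpa using hj)] at h3
          omega
      · rintro ⟨_, h⟩
        right
        exact (mem_Eb _ _ _).2 ⟨j, i, rfl, Nat.zero_le _, by simpa [hsz] using h⟩
    · intro j hj
      rw [hszj j hj]
      refine ⟨lv_pos _, ?_⟩
      by_contra h
      exact hnb j hj (Or.inl (by omega))
    · intro c
      rw [hE, List.countP_append, countP_Eb _ _ _ (fun _ _ => rfl), add_zero]
      exact (countP_EM p hp c 0 gs hgs).1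
    · intro j hj hjr S hS hSr
      have h1 := (pick_spec (K := K) r Bo l[j]).2.2 (hnb j hj)
      have h2 : ψ j = psf K r Bo l[j] := by
        simp only [hψ]; rw [List.getD_eq_getElem _ _ hj]
      rw [h2]
      exact h1.2 (by rw [← hszj j hj, hjr]) S hS hSr
  refine ⟨phi (fun _ => 1) ze l.length ψ E, fun R hR u v => kill hHE hp R hR u v,
    ⟨labs K r Bo 0 0 gs, labs_shape _ _ _, ?_⟩, ?_⟩
  · have hperm : (lvs (labs K r Bo 0 0 gs)).Perm E := labs_leaves 0 0 gs
    rw [lvl_phi _ hperm]
    obtain ⟨κ, hκ, h⟩ := ev_labs (K := K) (r := r) (Bo := Bo) p hp ze (max (need K r Bo gs + 1) p) hK gs 0 0 0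
      (by omega) (by omega) (by
        intro k hk
        simp only [hze, zero_add]
        rw [List.getD_eq_getElem _ _ hk])
    obtain ⟨κ', hκ', h'⟩ := Psi_ybl (K := K) (r := r) (Bo := Bo) l ψ 0 (by
      intro k hk
      have h1 := (pick_spec (K := K) r Bo l[k]).2.2 (hnb k hk)
      have h2 : ψ (0 + k) = psf K r Bo l[k] := by
        simp only [hψ, zero_add]; rw [List.getD_eq_getElem _ _ hk]
      rw [h2]; exact h1.1)
    have h3 := h' 1 (fun k _ => rfl)
    rw [map_one, one_mul, zero_add, Finset.prod_range_zero, one_mul] at h3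
    show Psi l.length ψ ((((labs K r Bo 0 0 gs).map (ev (op (fun _ => 1) ze))).prod) (fun _ => 1) s0) ≠ 0
    rw [h s0 rfl (fun _ _ => rfl), map_smul, smul_eq_mul, h3]
    exact mul_ne_zero hκ hκ'
  · intro Rs hRs
    have h1 := not_needed hHE hr hRs
    have hcE : E.countP isM = need K r Bo gs := by
      rw [hE, List.countP_append, countP_Eb _ _ _ (fun _ _ => rfl), add_zero, countP_EM_M]
    rw [hcE] at h1
    refine ⟨h1.1, fun h => (h1.2 h).trans ?_⟩
    rw [Gen_card p l z hzl]
    have := (gq_count (K := K) (r := r) (Bo := Bo) p 0 gs).1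
    simpa using this

end

/-- sign of the reversal -/
def sg {α : Type} : BK.LT α → K
  | BK.LT.leaf _ => 1
  | BK.LT.node a b => -(sg a * sg b)

lemma sg_ne {α : Type} (R : BK.LT α) : (sg R : K) ≠ 0 := by
  induction R with
  | leaf x => exact one_ne_zero
  | node a b iha ihb => exact neg_ne_zero.2 (mul_ne_zero iha ihb)

lemma val_rev {α : Type} (R : BK.LT α) (φ : List α → K) :
    R.val (fun w => φ w.reverse) = sg R * R.val φ := by
  induction R generalizing φ with
  | leaf x => simp [BK.LT.val, sg]
  | node a b iha ihb =>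
    simp only [BK.LT.val, List.reverse_append]
    have h1 : ∀ p : List α, b.val (fun q => φ (q.reverse ++ p.reverse)) = sg b * b.val (fun q => φ (q ++ p.reverse)) :=
      fun p => ihb (fun q => φ (q ++ p.reverse))
    have h2 : ∀ q : List α, a.val (fun p => φ (p.reverse ++ q.reverse)) = sg a * a.val (fun p => φ (p ++ q.reverse)) :=
      fun q => iha (fun p => φ (p ++ q.reverse))
    simp only [h1, h2, val_mul_left]
    rw [iha (fun p => b.val (fun q => φ (q ++ p))), ihb (fun q => a.val (fun p => φ (p ++ q))),
      val_val a b (fun p q => φ (q ++ p)), val_val b a (fun q p => φ (p ++ q)), sg]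
    ring

lemma lvl_val {α β : Type} (Ss : List (BK.LT α)) (R : BK.LT β) (χ : List β → List α → K) :
    R.val (fun p => lvl Ss (fun q => χ p q)) = lvl Ss (fun q => R.val (fun p => χ p q)) := by
  induction Ss generalizing χ with
  | nil => rfl
  | cons T Ss ih =>
    simp only [lvl]
    rw [val_val]
    congr 1
    funext q
    exact ih (fun p q' => χ p (q ++ q'))

lemma pval_congr' {α : Type} (Rs : List (BK.LT α)) {φ χ : List α → K} (h : ∀ w, φ w = χ w) : pval Rs φ = pval Rs χ := by
  have : φ = χ := funext h
  rw [this]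

lemma pval_rev {α : Type} (Rs : List (BK.LT α)) (φ : List α → K) :
    ∃ κ : K, κ ≠ 0 ∧ pval Rs (fun w => φ w.reverse) = κ * lvl Rs φ := by
  have hmul : ∀ (Rs : List (BK.LT α)), ∃ κ : K, κ ≠ 0 ∧ ∀ φ : List α → K, pval Rs (fun w => φ w.reverse) = κ * lvl Rs φ := by
    intro Rs
    induction Rs with
    | nil => exact ⟨1, one_ne_zero, fun φ => by simp [pval, lvl]⟩
    | cons R Rs ih =>
      obtain ⟨κ, hκ, h⟩ := ih
      refine ⟨κ * sg R, mul_ne_zero hκ (sg_ne R), fun φ => ?_⟩
      have h1 : pval (R :: Rs) (fun w => φ w.reverse) =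
          pval Rs (fun p => (fun p' => sg R * R.val (fun q => φ (q ++ p'))) p.reverse) := by
        rw [pval]
        refine pval_congr' Rs (fun p => ?_)
        simp only [List.reverse_append]
        exact val_rev R (fun q => φ (q ++ p.reverse))
      rw [h1, h (fun p' => sg R * R.val (fun q => φ (q ++ p')))]
      have h2 : ∀ (Ss : List (BK.LT α)) (c : K) (χ : List α → K), lvl Ss (fun w => c * χ w) = c * lvl Ss χ := by
        intro Ss c
        induction Ss with
        | nil => intro χ; rfl
        | cons T Ss ih2 => intro χ; simp only [lvl, ih2]; exact val_mul_left T c _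
      rw [h2, ← lvl_val Rs R (fun q p' => φ (q ++ p'))]
      show κ * (sg R * lvl (R :: Rs) φ) = _
      ring
  obtain ⟨κ, hκ, h⟩ := hmul Rs
  exact ⟨κ, hκ, h φ⟩

lemma pval_map' {α β : Type} (f : α → β) (Rs : List (BK.LT α)) (φ : List β → K) :
    pval (Rs.map (BK.LT.map f)) φ = pval Rs (fun w => φ (w.map f)) := by
  induction Rs generalizing φ with
  | nil => rfl
  | cons R Rs ih =>
    rw [List.map_cons, pval, pval, ih]
    refine pval_congr' Rs (fun p => ?_)
    rw [val_map]
    simp only [List.map_append]

/-- code -/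
def enc : Lr → ℕ
  | Lr.mk c i => 2 * Nat.pair c i
  | Lr.bl j i => 2 * Nat.pair j i + 1

/-- decode -/
def dec (n : ℕ) : Lr :=
  if n % 2 = 0 then Lr.mk (Nat.unpair (n / 2)).1 (Nat.unpair (n / 2)).2
  else Lr.bl (Nat.unpair (n / 2)).1 (Nat.unpair (n / 2)).2

lemma dec_enc (x : Lr) : dec (enc x) = x := by
  cases x with
  | mk c i =>
    have h1 : (2 * Nat.pair c i) % 2 = 0 := by omega
    have h2 : (2 * Nat.pair c i) / 2 = Nat.pair c i := by omega
    simp only [enc, dec, h1, h2, if_true, Nat.unpair_pair]
  | bl c i =>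
    have h1 : ¬ (2 * Nat.pair c i + 1) % 2 = 0 := by omega
    have h2 : (2 * Nat.pair c i + 1) / 2 = Nat.pair c i := by omega
    simp only [enc, dec, h1, h2, if_false, Nat.unpair_pair]

end Pool.Agent.BC78.BH31

namespace Pool.Agent.BC78.BZ

open Pool.Agent.H25 Pool.Agent.BC78.BK Pool.Agent.BC78.BH31

/-- Z3: LEVEL TEST -/
theorem level_test (K : Type*) [Field K] (r : ℕ) (hr : 1 ≤ r) (B : Option BT)
    (p : ℕ) (hp : 1 ≤ p) (gs : List BT) (hgs : ∀ g ∈ gs, cb K r B g < p)
    (hK : ∀ m : ℕ, 1 ≤ m → m ≤ max (need K r B gs + 1) p → ((m : ℕ) : K) ≠ 0) :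
    ∃ φ : List ℕ → K, IK φ {S | p ≤ cb K r B S} ∧ ¬ PK φ gs ∧
      ∀ gs' : List BT, (need K r B gs < need K r B gs' ∨
        (need K r B gs = need K r B gs' ∧ cent K r B (p - 1) gs < cent K r B (p - 1) gs')) → PK φ gs' := by
  obtain ⟨φ, h1, ⟨Rs, hRs, h2⟩, h3⟩ := lt_core (K := K) (r := r) (Bo := B) hr p hp gs hgs hK
  refine ⟨fun w => φ (w.map dec).reverse, ?_, ?_, ?_⟩
  · intro R hR u v
    have e : R.val (fun w => φ ((u ++ w ++ v).map dec).reverse) =
        (R.map dec).val (fun w => (fun w' => φ ((v.map dec).reverse ++ w' ++ (u.map dec).reverse)) w.reverse) := by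
      rw [val_map]
      congr 1
      funext w
      simp only [List.map_append, List.reverse_append, List.append_assoc]
    have e' := val_rev (R.map dec) (fun w' => φ ((v.map dec).reverse ++ w' ++ (u.map dec).reverse))
    have e'' := h1 (R.map dec) (by rw [shape_map]; exact hR) (v.map dec).reverse (u.map dec).reverse
    rw [e'', mul_zero] at e'
    rw [e]; exact e'
  · intro hPK
    have hm : (Rs.map (BK.LT.map enc)).map BK.LT.shape = gs := by
      rw [List.map_map, ← hRs]
      refine List.map_congr_left (fun R _ => ?_)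
      simp [shape_map]
    have h4 := hPK _ hm
    rw [pval_map'] at h4
    have e : (fun w : List Lr => φ ((w.map enc).map dec).reverse) = (fun w => φ w.reverse) := by
      funext w
      rw [List.map_map]
      have : (dec ∘ enc) = id := funext dec_enc
      rw [this, List.map_id]
    rw [e] at h4
    obtain ⟨κ, hκ, h5⟩ := pval_rev Rs φ
    rw [h5] at h4
    exact (mul_ne_zero hκ h2) h4
  · intro gs' hgs' Ss hSs
    by_contra hne
    rw [← pval_map' dec Ss (fun w => φ w.reverse)] at hne
    obtain ⟨κ, hκ, h5⟩ := pval_rev (Ss.map (BK.LT.map dec)) φ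
    rw [h5] at hne
    have h6 := h3 _ (right_ne_zero_of_mul hne)
    have hm : (Ss.map (BK.LT.map dec)).map BK.LT.shape = gs' := by
      rw [List.map_map, ← hSs]
      refine List.map_congr_left (fun R _ => ?_)
      simp [shape_map]
    rw [hm] at h6
    rcases hgs' with h | ⟨h, h'⟩
    · omega
    · have := h6.2 h.symm
      omega

end Pool.Agent.BC78.BZ
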