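import Pool.Agent.BC78.BH31.Cent

/-! Level test: functionals on blocks. -/

namespace Pool.Agent.BC78.BH31

open Pool.Agent.H25 Pool.Agent.BC78.BK Pool.Agent.BC78.BZ

variable {K : Type*} [Field K]

/-- tree with leaves numbered from `n` -/
def num : ℕ → BT → BK.LT ℕ
  | n, BT.leaf => BK.LT.leaf n
  | n, BT.node a b => BK.LT.node (num n a) (num (n + a.lv) b)

lemma num_shape (n : ℕ) (t : BT) : (num n t).shape = t := by
  induction t generalizing n with
  | leaf => rfl
  | node a b iha ihb => simp only [num, BK.LT.shape, iha, ihb]

lemma num_leaves (n : ℕ) (t : BT) : (num n t).leaves = List.range' n t.lv := by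
  induction t generalizing n with
  | leaf => rfl
  | node a b iha ihb =>
    simp only [num, BK.LT.leaves, iha, ihb, BT.lv]
    have := List.range'_append (s := n) (m := a.lv) (n := b.lv) (step := 1)
    simpa using this

lemma num_map {α : Type} (R : BK.LT α) (n : ℕ) (f : ℕ → α)
    (h : ∀ k (hk : k < R.leaves.length), f (n + k) = R.leaves[k]) : (num n R.shape).map f = R := by
  induction R generalizing n with
  | leaf x =>
    have := h 0 (by simp [BK.LT.leaves])
    simp only [BK.LT.shape, num, BK.LT.map]
    simpa [BK.LT.leaves] using this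
  | node a b iha ihb =>
    have e : (BK.LT.node a b).leaves = a.leaves ++ b.leaves := rfl
    simp only [BK.LT.shape, num, BK.LT.map]
    rw [iha n, ihb (n + a.shape.lv)]
    · intro k hk
      have := h (a.leaves.length + k) (by rw [e, List.length_append]; omega)
      rw [← length_leaves, add_assoc, this]
      simp [e]
    · intro k hk
      have := h k (by rw [e, List.length_append]; omega)
      rw [this]
      simp [e, List.getElem_append_left hk]

lemma lv_pos (t : BT) : 1 ≤ t.lv := by
  induction t with
  | leaf => simp [BT.lv]
  | node a b iha ihb => simp only [BT.lv]; omega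

lemma val_ind {α : Type} [DecidableEq α] (L : BK.LT α) (hn : L.leaves.Nodup) :
    L.val (fun w => if w = L.leaves then (1 : K) else 0) = 1 := by
  induction L with
  | leaf x => simp [BK.LT.val, BK.LT.leaves]
  | node a b iha ihb =>
    have hn' : (a.leaves ++ b.leaves).Nodup := hn
    rw [BK.LT.val]
    have h1 : a.val (fun p => b.val (fun q => if p ++ q = (BK.LT.node a b).leaves then (1 : K) else 0)) = 1 := by
      have e1 : ∀ p, p.Perm a.leaves → b.val (fun q => if p ++ q = (BK.LT.node a b).leaves then (1 : K) else 0) =
          (if p = a.leaves then (1 : K) else 0) := by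
        intro p hp
        have e2 : ∀ q : List α, q.Perm b.leaves → (if p ++ q = (BK.LT.node a b).leaves then (1 : K) else 0) =
            (if p = a.leaves then (1 : K) else 0) * (if q = b.leaves then 1 else 0) := by
          intro q _
          have : p ++ q = (BK.LT.node a b).leaves ↔ p = a.leaves ∧ q = b.leaves := by
            show p ++ q = a.leaves ++ b.leaves ↔ _
            constructor
            · intro h; exact List.append_inj h hp.length_eq
            · rintro ⟨rfl, rfl⟩; rfl
          simp only [this]
          split_ifs <;> simp_all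
        rw [val_congr b e2, val_mul_left, ihb hn'.of_append_right, mul_one]
      rw [val_congr a e1, iha hn'.of_append_left]
    have h2 : b.val (fun q => a.val (fun p => if q ++ p = (BK.LT.node a b).leaves then (1 : K) else 0)) = 0 := by
      refine (val_congr b (χ := fun _ => 0) (fun q hq => ?_)).trans (val_zero b)
      refine (val_congr a (χ := fun _ => 0) (fun p hp => ?_)).trans (val_zero a)
      rw [if_neg]
      intro h
      have h' : q ++ p = a.leaves ++ b.leaves := h
      have hqne : q ≠ [] := by
        intro h0; rw [h0] at hq
        have := hq.length_eq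
        rw [length_leaves] at this
        have := lv_pos b.shape
        simp at *; omega
      have hane : a.leaves ≠ [] := by
        intro h0
        have := length_leaves a
        rw [h0] at this
        have := lv_pos a.shape
        simp at *; omega
      obtain ⟨x, q', rfl⟩ := List.exists_cons_of_ne_nil hqne
      obtain ⟨y, a', ha'⟩ := List.exists_cons_of_ne_nil hane
      rw [ha', List.cons_append, List.cons_append] at h'
      have hxy : x = y := by injection h'
      have hx : x ∈ b.leaves := hq.mem_iff.1 (List.mem_cons_self ..)
      have hy : y ∈ a.leaves := by rw [ha']; exact List.mem_cons_self ..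
      exact List.disjoint_of_nodup_append hn' (hxy ▸ hy) hx
    rw [h1, h2, sub_zero]

open Classical in
lemma cb_pos_iff' {r : ℕ} (hr : 1 ≤ r) {Bo : Option BT} (S : BT) : 1 ≤ cb K r Bo S ↔ big K r Bo S := by
  induction S with
  | leaf => simp only [cb]; split_ifs with h <;> simp [h]
  | node a b iha ihb =>
    simp only [cb]
    have ha := lv_pos a
    have hb := lv_pos b
    split_ifs with h1 h2
    · simp [h2]
    · simp [h2]
    · constructor
      · intro _
        left
        show r < a.lv + b.lv
        have : 1 ≤ cb K r Bo a ∨ 1 ≤ cb K r Bo b := by omega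
        rcases this with h | h
        · rcases iha.1 h with h | h <;> omega
        · rcases ihb.1 h with h | h <;> omega
      · intro _; omega

lemma psi_ex (r : ℕ) (Bo : Option BT) (σ : BT) : ∃ (ψ : List ℕ → K) (S : BK.LT ℕ), S.shape = σ ∧
    S.leaves = List.range σ.lv ∧ (¬ big K r Bo σ → S.val ψ ≠ 0 ∧
      (σ.lv = r → ∀ S' : BK.LT ℕ, big K r Bo S'.shape → S'.shape.lv = r → S'.val ψ = 0)) := by
  classical
  have hlv : (num 0 σ).leaves = List.range σ.lv := by rw [num_leaves, List.range_eq_range']
  by_cases hb : big K r Bo σ
  · exact ⟨0, num 0 σ, num_shape _ _, hlv, fun h => absurd hb h⟩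
  by_cases hex : σ.lv = r ∧ ∃ b ∈ Bo, True
  · obtain ⟨hr, b, hbB, _⟩ := hex
    have hns : ¬ BZ.Sub K σ b := fun h => hb (Or.inr ⟨hr, b, hbB, h⟩)
    unfold BZ.Sub at hns
    push Not at hns
    obtain ⟨φ, h1, h2⟩ := hns
    unfold PK at h2
    push Not at h2
    obtain ⟨Rs, hRs, hv⟩ := h2
    obtain ⟨R, rfl⟩ : ∃ R, Rs = [R] := by
      have := congrArg List.length hRs
      rw [List.length_map] at this
      exact List.length_eq_one_iff.1 (by simpa using this)
    have hRσ : R.shape = σ := by simpa using hRs
    have hv' : R.val φ ≠ 0 := by simpa [pval] using hv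
    set f : ℕ → ℕ := fun k => R.leaves.getD k 0 with hf
    have hmap : (num 0 R.shape).map f = R := by
      refine num_map R 0 f (fun k hk => ?_)
      simp only [hf, zero_add]
      rw [List.getD_eq_getElem _ _ hk]
    refine ⟨fun w => φ (w.map f), num 0 σ, num_shape _ _, hlv, fun _ => ⟨?_, fun _ S' hS' hl => ?_⟩⟩
    · rw [← val_map, ← hRσ, hmap]; exact hv'
    · rcases hS' with hS' | ⟨_, b', hb', hS'⟩
      · omega
      · have hbb : b' = b := by
          rw [Option.mem_def] at hb' hbB; rw [hb'] at hbB; exact (Option.some.inj hbB)
        subst hbb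
        have h3 : PK (fun w => φ (w.map f)) [b'] := by
          intro Rs hRs'
          obtain ⟨R', rfl⟩ : ∃ R, Rs = [R] := by
            have := congrArg List.length hRs'
            rw [List.length_map] at this
            exact List.length_eq_one_iff.1 (by simpa using this)
          have := h1 [R'.map f] (by
            simp only [List.map_cons, List.map_nil, shape_map] at hRs' ⊢; exact hRs')
          simp only [pval, List.nil_append] at this ⊢
          rw [val_map] at this; exact this
        have h4 := hS' _ h3 [S'] rfl
        simpa [pval] using h4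
  · refine ⟨fun w => if w = (num 0 σ).leaves then 1 else 0, num 0 σ, num_shape _ _, hlv, fun _ => ⟨?_, ?_⟩⟩
    · rw [val_ind _ (by rw [hlv]; exact List.nodup_range)]; exact one_ne_zero
    · intro hr S' hS' hl
      exfalso
      rcases hS' with hS' | ⟨_, b', hb', _⟩
      · omega
      · exact hex ⟨hr, b', hb', trivial⟩

/-- the functional of a small tree -/
noncomputable def psf (K : Type*) [Field K] (r : ℕ) (Bo : Option BT) (σ : BT) : List ℕ → K := (psi_ex r Bo σ).choose

/-- the labelling of a small tree -/
noncomputable def pick (K : Type*) [Field K] (r : ℕ) (Bo : Option BT) (σ : BT) : BK.LT ℕ :=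
  (psi_ex (K := K) r Bo σ).choose_spec.choose

lemma pick_spec (r : ℕ) (Bo : Option BT) (σ : BT) : (pick K r Bo σ).shape = σ ∧
    (pick K r Bo σ).leaves = List.range σ.lv ∧ (¬ big K r Bo σ → (pick K r Bo σ).val (psf K r Bo σ) ≠ 0 ∧
      (σ.lv = r → ∀ S' : BK.LT ℕ, big K r Bo S'.shape → S'.shape.lv = r → S'.val (psf K r Bo σ) = 0)) :=
  (psi_ex (K := K) r Bo σ).choose_spec.choose_spec

end Pool.Agent.BC78.BH31
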